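import Pool.Agent.Lib.MP_ae9c87_an.Final

set_option autoImplicit false
open MeasureTheory Filter Topology Complex
open scoped ComplexConjugate InnerProductSpace

namespace Pool.Agent.Lib.MP_ae9c87_an

/-- the symbol of the generator -/
noncomputable def gx : C(X, ℂ) := ⟨fun x => I * ((x : ℝ) : ℂ), by fun_prop⟩

lemma gx_apply (x : X) : gx x = I * ((x : ℝ) : ℂ) := rfl

/-- the bounded generator -/
noncomputable def Ag : H →L[ℂ] H := piOp gx

/-- the cogenerator -/
noncomputable def Vg : H →L[ℂ] H := piOp vs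

lemma piOp_mul' (g h : C(X, ℂ)) : piOp (g * h) = piOp g * piOp h := by
  ext1 z
  exact piOp_mul g h z

lemma piOp_one' : piOp 1 = 1 := by
  ext1 z
  exact piOp_one z

lemma ch_deriv : Tendsto (fun t : ℝ => (t : ℝ)⁻¹ • (ch t - 1)) (𝓝[≠] 0) (𝓝 gx) := by
  rw [tendsto_iff_norm_sub_tendsto_zero]
  have hb : ∀ᶠ t : ℝ in 𝓝[≠] 0, ‖(t : ℝ)⁻¹ • (ch t - 1) - gx‖ ≤ 4 * |t| := by
    have h1 : ∀ᶠ t : ℝ in 𝓝[≠] 0, |t| ≤ 1 / 2 := by
      have h2 : ∀ᶠ t : ℝ in 𝓝 (0:ℝ), |t| ≤ 1 / 2 := by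
        have h3 := Metric.closedBall_mem_nhds (0:ℝ) (by norm_num : (0:ℝ) < 1 / 2)
        filter_upwards [h3] with t ht
        simpa [Metric.mem_closedBall] using ht
      exact h2.filter_mono nhdsWithin_le_nhds
    filter_upwards [h1, self_mem_nhdsWithin] with t ht ht0
    have ht0' : t ≠ 0 := ht0
    rw [ContinuousMap.norm_le _ (by positivity)]
    intro x
    have hx1 : (1:ℝ) ≤ (x:ℝ) := x.2.1
    have hx2 : (x:ℝ) ≤ 2 := x.2.2
    have e1 : ((t : ℝ)⁻¹ • (ch t - 1) - gx) x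
        = (t : ℂ)⁻¹ * (cexp (I * t * (x : ℝ)) - 1 - I * t * (x : ℝ)) := by
      have h5 : ((t : ℝ)⁻¹ • (ch t - 1) - gx) x = (t : ℝ)⁻¹ • (ch t x - 1) - gx x := rfl
      rw [h5, ch_apply, gx_apply, Complex.real_smul]
      have h6 : (t : ℂ) ≠ 0 := by exact_mod_cast ht0'
      push_cast
      field_simp
    have h7 : ‖I * t * ((x : ℝ) : ℂ)‖ ≤ 1 := by
      rw [norm_mul, norm_mul, norm_I, one_mul, Complex.norm_real, Complex.norm_real,
        Real.norm_eq_abs, Real.norm_eq_abs, abs_of_nonneg (by linarith : (0:ℝ) ≤ (x:ℝ))]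
      nlinarith [abs_nonneg t]
    have h8 := Complex.norm_exp_sub_one_sub_id_le h7
    rw [e1, norm_mul, norm_inv, Complex.norm_real, Real.norm_eq_abs]
    have h9 : ‖I * t * ((x : ℝ) : ℂ)‖ ≤ 2 * |t| := by
      rw [norm_mul, norm_mul, norm_I, one_mul, Complex.norm_real, Complex.norm_real,
        Real.norm_eq_abs, Real.norm_eq_abs, abs_of_nonneg (by linarith : (0:ℝ) ≤ (x:ℝ))]
      nlinarith [abs_nonneg t]
    have h10 : 0 < |t| := abs_pos.2 ht0'
    have h11 : ‖cexp (I * t * (x : ℝ)) - 1 - I * t * (x : ℝ)‖ ≤ (2 * |t|) ^ 2 :=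
      h8.trans (by
        have := norm_nonneg (I * t * ((x : ℝ) : ℂ))
        nlinarith)
    calc |t|⁻¹ * ‖cexp (I * t * (x : ℝ)) - 1 - I * t * (x : ℝ)‖ ≤ |t|⁻¹ * (2 * |t|) ^ 2 := by
          gcongr
      _ = 4 * |t| := by field_simp; ring
  have h0 : Tendsto (fun t : ℝ => 4 * |t|) (𝓝[≠] 0) (𝓝 0) := by
    have h1 : Tendsto (fun t : ℝ => 4 * |t|) (𝓝 0) (𝓝 (4 * |0|)) :=
      (continuous_const.mul continuous_abs).tendsto 0
    rw [abs_zero, mul_zero] at h1
    exact h1.mono_left nhdsWithin_le_nhds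
  exact squeeze_zero' (Eventually.of_forall fun t => norm_nonneg _) hb h0

/-- The generator: the difference quotients converge, even in operator norm. -/
lemma T_deriv_norm : Tendsto (fun t : ℝ => (t : ℝ)⁻¹ • (T t - 1)) (𝓝[≠] 0) (𝓝 Ag) := by
  have h := (piOp.continuous.tendsto gx).comp ch_deriv
  refine h.congr (fun t => ?_)
  have h2 : piOp ((t : ℝ)⁻¹ • (ch t - 1)) = (t : ℝ)⁻¹ • (piOp (ch t) - piOp 1) := by
    have h3 : ((t : ℝ)⁻¹ • (ch t - 1)) = ((t : ℂ)⁻¹ • (ch t - 1)) := by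
      ext x
      simp
    rw [h3, map_smul, map_sub]
    ext1 z
    have h4 : ((t : ℂ)⁻¹ • (piOp (ch t) - piOp 1)) z = (t : ℂ)⁻¹ • ((piOp (ch t) - piOp 1) z) := rfl
    have h5 : ((t : ℝ)⁻¹ • (piOp (ch t) - piOp 1)) z = (t : ℝ)⁻¹ • ((piOp (ch t) - piOp 1) z) := rfl
    rw [h4, h5, ← Complex.ofReal_inv, Complex.coe_smul]
    rfl
  rw [Function.comp_apply, h2, piOp_one']
  rfl

lemma T_continuous_norm : Continuous T := by
  have h : Continuous (fun t => piOp (ch t)) := piOp.continuous.comp ch_continuous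
  exact h

lemma T_norm_eq (t : ℝ) (z : H) : ‖T t z‖ = ‖z‖ := by
  apply le_antisymm
  · exact piOp_norm_le _ (fun x => (norm_ch t x).le) z
  · have h1 : T (-t) (T t z) = z := by
      have h2 : T (-t + t) = T (-t) * T t := T_add (-t) t
      rw [neg_add_cancel, T_zero] at h2
      have h3 := congrArg (fun S : H →L[ℂ] H => S z) h2
      exact h3.symm
    calc ‖z‖ = ‖T (-t) (T t z)‖ := by rw [h1]
      _ ≤ ‖T t z‖ := piOp_norm_le _ (fun x => (norm_ch (-t) x).le) _

lemma T_unitary (t : ℝ) : T t ∈ unitary (H →L[ℂ] H) := by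
  have h1 : ContinuousLinearMap.adjoint (T t) ∘L (T t) = 1 :=
    (ContinuousLinearMap.norm_map_iff_adjoint_comp_self (T t)).1 (T_norm_eq t)
  have h1' : ContinuousLinearMap.adjoint (T t) * (T t) = 1 := h1
  have h2 : T t * T (-t) = 1 := by
    rw [← T_add, add_neg_cancel, T_zero]
  have h3 : ContinuousLinearMap.adjoint (T t) = T (-t) := by
    calc ContinuousLinearMap.adjoint (T t)
        = ContinuousLinearMap.adjoint (T t) * (T t * T (-t)) := by rw [h2, mul_one]
      _ = T (-t) := by rw [← mul_assoc, h1', one_mul]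
  rw [Unitary.mem_iff]
  refine ⟨h1', ?_⟩
  rw [ContinuousLinearMap.star_eq_adjoint, h3, h2]

lemma rs_mul : (gx - 1) * rs = -1 := by
  ext x
  have h1 : ((gx - 1) * rs) x = (I * ((x : ℝ) : ℂ) - 1) * (1 / (1 - I * ((x : ℝ) : ℂ))) := rfl
  have h2 : (-1 : C(X, ℂ)) x = -1 := rfl
  rw [h1, h2]
  have h5 := one_sub_ne' x
  field_simp
  ring

lemma Ag_sub_mul : (Ag - 1) * (-(piOp rs)) = 1 := by
  have h : Ag - 1 = piOp (gx - 1) := by rw [map_sub, piOp_one']; rfl
  rw [h, mul_neg, ← piOp_mul', rs_mul, map_neg, piOp_one', neg_neg]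

lemma mul_Ag_sub : (-(piOp rs)) * (Ag - 1) = 1 := by
  have h : Ag - 1 = piOp (gx - 1) := by rw [map_sub, piOp_one']; rfl
  rw [h, neg_mul, ← piOp_mul', mul_comm, rs_mul, map_neg, piOp_one', neg_neg]

lemma Ag_isUnit : IsUnit (Ag - 1) := ⟨⟨_, _, Ag_sub_mul, mul_Ag_sub⟩, rfl⟩

lemma Ag_inverse : Ring.inverse (Ag - 1) = -(piOp rs) := by
  have h : Ag - 1 = ((⟨_, _, Ag_sub_mul, mul_Ag_sub⟩ : (H →L[ℂ] H)ˣ) : H →L[ℂ] H) := rfl
  rw [h, Ring.inverse_unit]
  rfl

lemma Vg_eq : Vg = (Ag + 1) * Ring.inverse (Ag - 1) := by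
  rw [Ag_inverse]
  have h : Ag + 1 = (Ag - 1) + (2 : ℂ) • 1 := by
    rw [two_smul]; abel
  rw [h, add_mul, Ag_sub_mul, smul_mul_assoc, one_mul, Vg, vs, map_sub, map_smul, piOp_one', smul_neg]
  abel

lemma Vg_pow (n : ℕ) : Vg ^ n = piOp (vs ^ n) := by
  induction n with
  | zero => rw [pow_zero, pow_zero, piOp_one']
  | succ n ih => rw [pow_succ, pow_succ, ih, Vg, ← piOp_mul']

lemma Vg_weak (x y : H) : Tendsto (fun n : ℕ => inner ℂ ((Vg ^ n) x) y) atTop (𝓝 0) := by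
  have h := V_weakly_stable x y
  simp only [V_iter] at h
  simpa only [Vg_pow] using h

lemma norm_gx : ‖Ag‖ ≤ 2 := by
  apply ContinuousLinearMap.opNorm_le_bound _ (by norm_num)
  intro z
  have h1 : Ag z = (2:ℂ) • piOp ((1 / 2 : ℂ) • gx) z := by
    rw [map_smul]
    have h2 : ((1 / 2 : ℂ) • piOp gx) z = (1 / 2 : ℂ) • piOp gx z := rfl
    rw [h2, smul_smul]
    norm_num
    rfl
  rw [h1, norm_smul]
  have h3 : ‖piOp ((1 / 2 : ℂ) • gx) z‖ ≤ ‖z‖ := by
    apply piOp_norm_le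
    intro x
    have hx1 : (1:ℝ) ≤ (x:ℝ) := x.2.1
    have hx2 : (x:ℝ) ≤ 2 := x.2.2
    have h4 : ((1 / 2 : ℂ) • gx) x = (1 / 2 : ℂ) * (I * ((x : ℝ) : ℂ)) := rfl
    rw [h4, norm_mul, norm_mul, norm_I, one_mul, Complex.norm_real, Real.norm_eq_abs,
      abs_of_nonneg (by linarith : (0:ℝ) ≤ (x:ℝ))]
    norm_num
    linarith
  have h5 : ‖(2:ℂ)‖ = 2 := by norm_num
  rw [h5]
  linarith

lemma Ag_skew : ContinuousLinearMap.adjoint Ag = -Ag := by
  symm
  rw [ContinuousLinearMap.eq_adjoint_iff]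
  intro x y
  have hl : ∀ u v : H, Tendsto (fun t : ℝ => inner ℂ ((t : ℝ)⁻¹ • (T t u - u)) v) (𝓝[≠] 0)
      (𝓝 (inner ℂ (Ag u) v)) := by
    intro u v
    have h1 : Tendsto (fun t : ℝ => ((t : ℝ)⁻¹ • (T t - 1)) u) (𝓝[≠] 0) (𝓝 (Ag u)) :=
      ((ContinuousLinearMap.apply ℂ H u).continuous.tendsto Ag).comp T_deriv_norm
    exact h1.inner tendsto_const_nhds
  have hr : ∀ u v : H, Tendsto (fun t : ℝ => inner ℂ u ((t : ℝ)⁻¹ • (T t v - v))) (𝓝[≠] 0)
      (𝓝 (inner ℂ u (Ag v))) := by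
    intro u v
    have h1 : Tendsto (fun t : ℝ => ((t : ℝ)⁻¹ • (T t - 1)) v) (𝓝[≠] 0) (𝓝 (Ag v)) :=
      ((ContinuousLinearMap.apply ℂ H v).continuous.tendsto Ag).comp T_deriv_norm
    exact tendsto_const_nhds.inner h1
  have hadj : ∀ t : ℝ, inner ℂ (T t x) y = inner ℂ x (T (-t) y) := by
    intro t
    have h1 : T t (T (-t) y) = y := by
      have h2 : T (t + -t) = T t * T (-t) := T_add t (-t)
      rw [add_neg_cancel, T_zero] at h2
      exact (congrArg (fun S : H →L[ℂ] H => S y) h2).symm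
    have h3 : ContinuousLinearMap.adjoint (T t) * T t = 1 := (Unitary.mem_iff.1 (T_unitary t)).1
    calc inner ℂ (T t x) y = inner ℂ (T t x) (T t (T (-t) y)) := by rw [h1]
      _ = inner ℂ x ((ContinuousLinearMap.adjoint (T t)) (T t (T (-t) y))) := by
          rw [ContinuousLinearMap.adjoint_inner_right]
      _ = inner ℂ x ((ContinuousLinearMap.adjoint (T t) * T t) (T (-t) y)) := rfl
      _ = inner ℂ x (T (-t) y) := by rw [h3]; rfl
  -- the difference quotient at `t` on the left is minus the one at `-t` on the right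
  have hneg : Tendsto (fun t : ℝ => -t) (𝓝[≠] (0:ℝ)) (𝓝[≠] 0) := by
    have h1 : Tendsto (fun t : ℝ => -t) (𝓝[≠] (0:ℝ)) (𝓝 0) := by
      have h2 : Tendsto (fun t : ℝ => -t) (𝓝 (0:ℝ)) (𝓝 (-0)) := continuous_neg.tendsto 0
      rw [neg_zero] at h2
      exact h2.mono_left nhdsWithin_le_nhds
    refine tendsto_nhdsWithin_iff.2 ⟨h1, ?_⟩
    filter_upwards [self_mem_nhdsWithin] with t ht
    simpa using ht
  have h5 := (hr x y).comp hneg
  have h6 : Tendsto (fun t : ℝ => inner ℂ ((t : ℝ)⁻¹ • (T t x - x)) y) (𝓝[≠] 0)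
      (𝓝 (-(inner ℂ x (Ag y)))) := by
    refine h5.neg.congr (fun t => ?_)
    rw [Function.comp_apply]
    have e1 : (inner ℂ ((t : ℝ)⁻¹ • (T t x - x)) y : ℂ) = ((t : ℝ)⁻¹ : ℂ) * (inner ℂ x (T (-t) y) - inner ℂ x y) := by
      rw [inner_smul_left_eq_smul, inner_sub_left, hadj, Complex.real_smul]
      simp
    have e2 : (inner ℂ x ((-t : ℝ)⁻¹ • (T (-t) y - y)) : ℂ) = ((-t : ℝ)⁻¹ : ℂ) * (inner ℂ x (T (-t) y) - inner ℂ x y) := by
      rw [inner_smul_right_eq_smul, inner_sub_right, Complex.real_smul]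
      simp
    rw [e1, e2]
    push_cast
    rw [inv_neg]
    ring
  have h7 := tendsto_nhds_unique (hl x y) h6
  have h8 : (inner ℂ ((-Ag) x) y : ℂ) = -(inner ℂ (Ag x) y) := by
    rw [_root_.neg_apply, inner_neg_left]
  rw [h8, h7, neg_neg]

lemma T_not : ¬ Tendsto (fun t : ℝ => inner ℂ (T t (ev 0)) (ev 0)) atTop (𝓝 0) := by
  intro h
  have h1 := h.comp freq_tendsto
  simp only [Function.comp_def, inner_T] at h1
  have h2 := h1.norm
  rw [norm_zero] at h2
  have h3 : (1:ℝ) / 4 ≤ 0 := by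
    apply ge_of_tendsto h2
    apply Filter.Eventually.of_forall
    intro k
    rw [RCLike.norm_conj]
    exact trm_freq_ge k
  norm_num at h3

lemma separable_H : TopologicalSpace.SeparableSpace H := by
  have h1 : DenseRange (ContinuousMap.toLp (E := ℂ) 2 mu ℂ : C(X, ℂ) → H) :=
    ContinuousMap.toLp_denseRange ℂ mu ℂ (by norm_num)
  have h2 : SecondCountableTopology C(X, ℂ) := inferInstance
  exact h1.separableSpace (ContinuousMap.toLp (E := ℂ) 2 mu ℂ).continuous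

/-- the probability measure on the line -/
noncomputable def nu : Measure ℝ := (mu Set.univ)⁻¹ • mu.map Subtype.val

lemma mu_univ_ne : mu Set.univ ≠ 0 := by
  intro h
  have h1 : mu = 0 := Measure.measure_univ_eq_zero.1 h
  have h2 := trm_freq_ge 0
  unfold trm at h2
  rw [h1, integral_zero_measure, norm_zero] at h2
  norm_num at h2

lemma measurableEmbedding_val : MeasurableEmbedding (Subtype.val : X → ℝ) :=
  MeasurableEmbedding.subtype_coe measurableSet_Icc

lemma integral_nu (G : ℝ → ℂ) : ∫ x, G x ∂nu = ((mu Set.univ)⁻¹).toReal • ∫ x : X, G x ∂mu := by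
  rw [nu, integral_smul_measure, measurableEmbedding_val.integral_map]

instance : IsProbabilityMeasure nu := by
  constructor
  rw [nu, Measure.smul_apply, Measure.map_apply measurable_subtype_coe MeasurableSet.univ,
    Set.preimage_univ, smul_eq_mul]
  exact ENNReal.inv_mul_cancel mu_univ_ne (measure_ne_top _ _)

lemma nu_supp : nu (Set.Icc 1 2)ᶜ = 0 := by
  rw [nu, Measure.smul_apply, Measure.map_apply measurable_subtype_coe measurableSet_Icc.compl]
  have h : (Subtype.val : X → ℝ) ⁻¹' (Set.Icc 1 2)ᶜ = ∅ := by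
    ext x
    simp only [Set.mem_preimage, Set.mem_compl_iff, Set.mem_empty_iff_false, iff_false, not_not]
    exact x.2
  rw [h]
  simp

/-- Cayley transform of the line onto the circle -/
noncomputable def cay (x : ℝ) : ℂ := (I * x + 1) / (I * x - 1)

lemma cay_eq (x : ℝ) : cay x = - w x := by
  unfold cay w
  have h1 := one_sub_ne x
  have h2 : I * (x:ℂ) - 1 ≠ 0 := by
    intro h
    apply h1
    have : (1 - I * x : ℂ) = -(I * x - 1) := by ring
    rw [this, h, neg_zero]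
  field_simp
  ring

lemma continuous_w : Continuous w := by
  have h := continuous_osc 1 0
  have h2 : osc 1 0 = w := by
    ext x
    simp [osc]
  rwa [h2] at h

lemma continuous_cay : Continuous cay := by
  have h : cay = fun x => - w x := funext cay_eq
  rw [h]
  exact continuous_w.neg

lemma norm_cay (x : ℝ) : ‖cay x‖ = 1 := by rw [cay_eq, norm_neg, norm_w]

lemma integral_cay_map (m : ℤ) : ∫ z, z ^ m ∂(nu.map cay) = ∫ x, cay x ^ m ∂nu := by
  rw [integral_map continuous_cay.measurable.aemeasurable]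
  exact (by fun_prop : Measurable fun z : ℂ => z ^ m).aestronglyMeasurable

lemma int_pow_tendsto : Tendsto (fun n : ℕ => ∫ x, cay x ^ n ∂nu) atTop (𝓝 0) := by
  have h1 : ∀ n : ℕ, ∫ x, cay x ^ n ∂nu = ((mu Set.univ)⁻¹).toReal • ((-1) ^ n * trm n 0) := by
    intro n
    rw [integral_nu (fun x => cay x ^ n), trm, ← integral_const_mul]
    congr 1
    congr 1
    ext x
    rw [cay_eq, osc, neg_pow]
    simp
  simp only [h1]
  have h2 : Tendsto (fun n : ℕ => ((-1 : ℂ)) ^ n * trm n 0) atTop (𝓝 0) := by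
    rw [tendsto_zero_iff_norm_tendsto_zero]
    have h := (trm_tendsto 0).norm
    rw [norm_zero] at h
    refine h.congr (fun n => ?_)
    rw [norm_mul, norm_pow, norm_neg, norm_one, one_pow, one_mul]
  have h3 := h2.const_smul ((mu Set.univ)⁻¹).toReal
  rwa [smul_zero] at h3

lemma integral_neg_pow (n : ℕ) : ∫ x, cay x ^ (-(n : ℤ)) ∂nu = conj (∫ x, cay x ^ n ∂nu) := by
  rw [← integral_conj]
  congr 1
  ext x
  rw [zpow_neg, zpow_natCast, map_pow, ← inv_pow]
  congr 1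
  exact Complex.inv_eq_conj (norm_cay x)

lemma rajchman_image : Tendsto (fun m : ℤ => ∫ z, z ^ (-m) ∂(nu.map cay)) cofinite (𝓝 0) := by
  simp only [integral_cay_map]
  have h1 := int_pow_tendsto
  rw [tendsto_zero_iff_norm_tendsto_zero] at h1 ⊢
  have h2 : ∀ m : ℤ, ‖∫ x, cay x ^ (-m) ∂nu‖ = ‖∫ x, cay x ^ (m.natAbs) ∂nu‖ := by
    intro m
    rcases Int.natAbs_eq m with h | h
    · rw [h, Int.natAbs_natCast, integral_neg_pow, RCLike.norm_conj]
    · conv_lhs => rw [h]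
      rw [neg_neg]
      simp only [zpow_natCast]
  simp only [h2]
  have hat : Tendsto (fun m : ℤ => m.natAbs) cofinite atTop := by
    rw [tendsto_atTop]
    intro b
    rw [Filter.eventually_cofinite]
    refine (Set.finite_Icc (-(b : ℤ)) b).subset (fun m hm => ?_)
    simp only [Set.mem_ofPred_eq, not_le] at hm
    simp only [Set.mem_Icc]
    omega
  exact h1.comp hat

lemma not_rajchman : ¬ Tendsto (fun s : ℝ => ∫ x, cexp (-(I * s * x)) ∂nu) atTop (𝓝 0) := by
  intro h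
  have h1 := (h.comp freq_tendsto).norm
  rw [norm_zero] at h1
  have hc : 0 < ((mu Set.univ)⁻¹).toReal :=
    ENNReal.toReal_pos (ENNReal.inv_ne_zero.2 (measure_ne_top _ _))
      (ENNReal.inv_ne_top.2 mu_univ_ne)
  have h3 : ((mu Set.univ)⁻¹).toReal * (1 / 4) ≤ 0 := by
    apply ge_of_tendsto h1
    apply Filter.Eventually.of_forall
    intro k
    rw [Function.comp_apply, integral_nu (fun x => cexp (-(I * (freq k) * x))), norm_smul,
      Real.norm_eq_abs, abs_of_pos hc]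
    have h4 : ∫ x : X, cexp (-(I * (freq k) * ((x : ℝ) : ℂ))) ∂mu = conj (trm 0 (freq k)) := by
      rw [trm, ← integral_conj]
      congr 1
      ext x
      simp only [osc, pow_zero, one_mul]
      rw [← Complex.exp_conj]
      congr 1
      simp
    rw [h4, RCLike.norm_conj]
    exact mul_le_mul_of_nonneg_left (trm_freq_ge k) hc.le
  linarith [mul_pos hc (by norm_num : (0:ℝ) < 1 / 4)]

end Pool.Agent.Lib.MP_ae9c87_an
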