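import Pool.Agent.Lib.MP_ae9c87_an.Operator

set_option autoImplicit false
open MeasureTheory Filter Topology Complex
open scoped ComplexConjugate

namespace Pool.Agent.Lib.MP_ae9c87_an

lemma vs_norm (x : X) (n : ℕ) : ‖(vs ^ n) x‖ ≤ 1 := by
  rw [ContinuousMap.pow_apply, vs_apply, norm_pow, norm_neg, norm_w, one_pow]

/-- Abstract density argument in the first variable. -/
lemma weak_left (y : H) (hy : ∀ s : ℝ, Tendsto (fun n : ℕ => inner ℂ (piOp (vs ^ n) (ev s)) y)
    atTop (𝓝 0)) (x : H) :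
    Tendsto (fun n : ℕ => inner ℂ (piOp (vs ^ n) x) y) atTop (𝓝 0) := by
  -- the set of good `x` is a closed submodule
  have hspan : ∀ x ∈ Submodule.span ℂ (Set.range ev),
      Tendsto (fun n : ℕ => inner ℂ (piOp (vs ^ n) x) y) atTop (𝓝 0) := by
    intro x hx
    induction hx using Submodule.span_induction with
    | mem x h =>
      obtain ⟨s, rfl⟩ := h
      exact hy s
    | zero => simp
    | add a b _ _ ha hb =>
      simp only [map_add, inner_add_left]
      simpa using ha.add hb
    | smul c a _ ha =>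
      simp only [map_smul, inner_smul_left]
      simpa using ha.const_mul (conj c)
  rw [Metric.tendsto_atTop]
  intro ε hε
  have hx : x ∈ closure (Submodule.span ℂ (Set.range ev) : Set H) := by
    have h := span_ev
    rw [← Submodule.topologicalClosure_coe, h]
    trivial
  obtain ⟨x', hx', hd⟩ := Metric.mem_closure_iff.1 hx (ε / (2 * (‖y‖ + 1))) (by positivity)
  obtain ⟨N, hN⟩ := (Metric.tendsto_atTop.1 (hspan x' hx')) (ε / 2) (by positivity)
  refine ⟨N, fun n hn => ?_⟩
  have h1 := hN n hn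
  rw [dist_zero_right] at h1 ⊢
  have h2 : inner ℂ (piOp (vs ^ n) x) y =
      inner ℂ (piOp (vs ^ n) (x - x')) y + inner ℂ (piOp (vs ^ n) x') y := by
    rw [← inner_add_left, ← map_add, sub_add_cancel]
  rw [h2]
  have h3 : ‖inner ℂ (piOp (vs ^ n) (x - x')) y‖ ≤ ε / 2 := by
    calc ‖inner ℂ (piOp (vs ^ n) (x - x')) y‖ ≤ ‖piOp (vs ^ n) (x - x')‖ * ‖y‖ :=
          norm_inner_le_norm _ _
      _ ≤ ‖x - x'‖ * ‖y‖ := by
          gcongr
          exact piOp_norm_le _ (fun t => vs_norm t n) _
      _ ≤ (ε / (2 * (‖y‖ + 1))) * (‖y‖ + 1) := by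
          rw [dist_eq_norm] at hd
          gcongr
          linarith
      _ = ε / 2 := by field_simp
  calc _ ≤ _ := norm_add_le _ _
    _ < ε / 2 + ε / 2 := add_lt_add_of_le_of_lt h3 h1
    _ = ε := by ring

/-- Abstract density argument in the second variable. -/
lemma weak_right (x : H) (hx : ∀ s : ℝ, Tendsto (fun n : ℕ => inner ℂ (piOp (vs ^ n) x) (ev s))
    atTop (𝓝 0)) (y : H) :
    Tendsto (fun n : ℕ => inner ℂ (piOp (vs ^ n) x) y) atTop (𝓝 0) := by
  have hspan : ∀ y ∈ Submodule.span ℂ (Set.range ev),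
      Tendsto (fun n : ℕ => inner ℂ (piOp (vs ^ n) x) y) atTop (𝓝 0) := by
    intro y hy
    induction hy using Submodule.span_induction with
    | mem y h =>
      obtain ⟨s, rfl⟩ := h
      exact hx s
    | zero => simp
    | add a b _ _ ha hb =>
      simp only [inner_add_right]
      simpa using ha.add hb
    | smul c a _ ha =>
      simp only [inner_smul_right]
      simpa using ha.const_mul c
  rw [Metric.tendsto_atTop]
  intro ε hε
  have hy : y ∈ closure (Submodule.span ℂ (Set.range ev) : Set H) := by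
    have h := span_ev
    rw [← Submodule.topologicalClosure_coe, h]
    trivial
  obtain ⟨y', hy', hd⟩ := Metric.mem_closure_iff.1 hy (ε / (2 * (‖x‖ + 1))) (by positivity)
  obtain ⟨N, hN⟩ := (Metric.tendsto_atTop.1 (hspan y' hy')) (ε / 2) (by positivity)
  refine ⟨N, fun n hn => ?_⟩
  have h1 := hN n hn
  rw [dist_zero_right] at h1 ⊢
  have h2 : inner ℂ (piOp (vs ^ n) x) y =
      inner ℂ (piOp (vs ^ n) x) (y - y') + inner ℂ (piOp (vs ^ n) x) y' := by
    rw [← inner_add_right, sub_add_cancel]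
  rw [h2]
  have h3 : ‖inner ℂ (piOp (vs ^ n) x) (y - y')‖ ≤ ε / 2 := by
    calc ‖inner ℂ (piOp (vs ^ n) x) (y - y')‖ ≤ ‖piOp (vs ^ n) x‖ * ‖y - y'‖ :=
          norm_inner_le_norm _ _
      _ ≤ ‖x‖ * ‖y - y'‖ := by
          gcongr
          exact piOp_norm_le _ (fun t => vs_norm t n) _
      _ ≤ (‖x‖ + 1) * (ε / (2 * (‖x‖ + 1))) := by
          rw [dist_eq_norm] at hd
          gcongr
          linarith
      _ = ε / 2 := by field_simp
  calc _ ≤ _ := norm_add_le _ _
    _ < ε / 2 + ε / 2 := add_lt_add_of_le_of_lt h3 h1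
    _ = ε := by ring

/-- The cogenerator is weakly stable. -/
theorem V_weakly_stable (x y : H) :
    Tendsto (fun n : ℕ => inner ℂ ((fun z : H => z - (2 : ℂ) •
      ∫ t in Set.Ioi (0 : ℝ), ((Real.exp (-t) : ℝ) : ℂ) • T t z)^[n] x) y) atTop (𝓝 0) := by
  simp only [V_iter]
  exact weak_left y (fun s => weak_right (ev s) (fun r => inner_V_tendsto s r) y) x

/-- The semigroup is not weakly stable. -/
theorem T_not_weakly_stable :
    ¬ ∀ x y : H, Tendsto (fun t : ℝ => inner ℂ (T t x) y) atTop (𝓝 0) := by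
  intro h
  have h1 := (h (ev 0) (ev 0)).comp freq_tendsto
  simp only [Function.comp_def, inner_T] at h1
  have h2 := h1.norm
  rw [norm_zero] at h2
  have h3 : (1:ℝ) / 4 ≤ 0 := by
    apply ge_of_tendsto h2
    apply Filter.Eventually.of_forall
    intro k
    rw [RCLike.norm_conj]
    exact trm_freq_ge k
  norm_num at h3

end Pool.Agent.Lib.MP_ae9c87_an
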