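import Pool.Agent.Lib.MP_ae9c87_an.Riesz

set_option autoImplicit false
open MeasureTheory intervalIntegral Filter Topology Complex
open scoped BoundedContinuousFunction

namespace Pool.Agent.Lib.MP_ae9c87_an

/-- The compact interval carrying the spectral measure. -/
abbrev X : Type := Set.Icc (1:ℝ) 2

/-- Lebesgue measure on `[1,2]`. -/
noncomputable def base : Measure X := Measure.comap Subtype.val (volume : Measure ℝ)

lemma integral_base (G : ℝ → ℂ) : ∫ x : X, G x ∂base = ∫ x in (1:ℝ)..2, G x := by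
  unfold base
  rw [integral_subtype_comap measurableSet_Icc G, intervalIntegral.integral_of_le (by norm_num),
    integral_Icc_eq_integral_Ioc]

instance : IsFiniteMeasure base := by
  constructor
  unfold base
  rw [comap_subtype_coe_apply measurableSet_Icc]
  rw [Set.image_univ, Subtype.range_coe, Real.volume_Icc]
  exact ENNReal.ofReal_lt_top

noncomputable def muk (k : ℕ) : Measure X :=
  base.withDensity (fun x => ((Real.toNNReal (dens k x) : NNReal) : ENNReal))

lemma integral_muk (k : ℕ) (G : ℝ → ℂ) :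
    ∫ x : X, G x ∂(muk k) = ∫ x in (1:ℝ)..2, G x * (dens k x : ℂ) := by
  unfold muk
  rw [integral_withDensity_eq_integral_smul]
  · rw [← integral_base (fun x => G x * (dens k x : ℂ))]
    congr 1
    ext x
    rw [NNReal.smul_def, Real.coe_toNNReal _ (dens_nonneg k x)]
    rw [Complex.real_smul]
    ring
  · have := dens_continuous k
    fun_prop

instance (k : ℕ) : IsFiniteMeasure (muk k) := by
  unfold muk
  apply isFiniteMeasure_withDensity_ofReal (f := fun x : X => dens k x)
  have hc : Continuous (fun x : X => dens k x) := (dens_continuous k).comp continuous_subtype_val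
  have := (BoundedContinuousFunction.mkOfCompact ⟨_, hc⟩).integrable base
  exact this.2

noncomputable def fmk (k : ℕ) : FiniteMeasure X := ⟨muk k, inferInstance⟩

lemma osc_zero (x : ℝ) : osc 0 0 x = 1 := by
  simp [osc]

lemma mass_fmk (k : ℕ) : (fmk k).mass ≤ 2 := by
  have h : ∫ x : X, (1:ℂ) ∂(muk k) = tr k 0 0 := by
    rw [integral_muk k (fun _ => (1:ℂ))]
    unfold tr
    simp only [osc_zero]
  have h2 := mass_close k
  rw [← h] at h2
  rw [MeasureTheory.integral_const] at h2
  have h3 : ((fmk k).mass : ℝ) = (muk k).real Set.univ := rfl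
  rw [← h3] at h2
  have h4 : ((fmk k).mass : ℝ) ≤ 2 := by
    have h5 : ‖(((fmk k).mass : ℝ) • (1:ℂ))‖ ≤ ‖(((fmk k).mass : ℝ) • (1:ℂ)) - 1‖ + ‖(1:ℂ)‖ := by
      calc _ = ‖((((fmk k).mass : ℝ) • (1:ℂ)) - 1) + 1‖ := by congr 1; ring
        _ ≤ _ := norm_add_le _ _
    have h6 : ‖(((fmk k).mass : ℝ) • (1:ℂ))‖ = (fmk k).mass := by
      rw [norm_smul]
      simp
    rw [h6, norm_one] at h5
    linarith
  exact_mod_cast h4

lemma exists_limit : ∃ (U : Ultrafilter ℕ) (μ : FiniteMeasure X), (U : Filter ℕ) ≤ atTop ∧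
    Tendsto fmk U (𝓝 μ) := by
  have hK := isCompact_setOfPred_finiteMeasure_le_of_compactSpace X 2
  rw [isCompact_iff_ultrafilter_le_nhds'] at hK
  obtain ⟨μ, _, hμ⟩ := hK ((Filter.hyperfilter ℕ).map fmk) (by
    rw [Ultrafilter.mem_map]
    apply Filter.Eventually.of_forall
    exact mass_fmk)
  refine ⟨Filter.hyperfilter ℕ, μ, ?_, hμ⟩
  rw [← Nat.cofinite_eq_atTop]
  exact Filter.hyperfilter_le_cofinite

noncomputable def ult : Ultrafilter ℕ := Classical.choose exists_limit
noncomputable def muF : FiniteMeasure X := Classical.choose (Classical.choose_spec exists_limit)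
/-- The limiting Riesz product measure. -/
noncomputable def mu : Measure X := (muF : Measure X)
instance : IsFiniteMeasure mu := by unfold mu; infer_instance

lemma ult_le : (ult : Filter ℕ) ≤ atTop :=
  (Classical.choose_spec (Classical.choose_spec exists_limit)).1

lemma fmk_tendsto : Tendsto fmk ult (𝓝 muF) :=
  (Classical.choose_spec (Classical.choose_spec exists_limit)).2

lemma integral_tendsto (G : ℝ → ℂ) (hG : Continuous G) :
    Tendsto (fun k => ∫ x in (1:ℝ)..2, G x * (dens k x : ℂ)) ult (𝓝 (∫ x : X, G x ∂mu)) := by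
  have h := (FiniteMeasure.tendsto_iff_forall_integral_rclike_tendsto ℂ).1 fmk_tendsto
    (BoundedContinuousFunction.mkOfCompact ⟨fun x : X => G x, hG.comp continuous_subtype_val⟩)
  have h2 : ∀ k, ∫ x : X, (BoundedContinuousFunction.mkOfCompact
      (⟨fun x : X => G x, hG.comp continuous_subtype_val⟩ : C(X, ℂ))) x ∂(fmk k : Measure X)
      = ∫ x in (1:ℝ)..2, G x * (dens k x : ℂ) := fun k => integral_muk k G
  simp only [h2] at h
  exact h

/-- transform of the limit measure -/
noncomputable def trm (n : ℕ) (s : ℝ) : ℂ := ∫ x : X, osc n s x ∂mu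

lemma tr_tendsto_trm (n : ℕ) (s : ℝ) : Tendsto (fun k => tr k n s) ult (𝓝 (trm n s)) :=
  integral_tendsto (osc n s) (continuous_osc n s)

lemma trm_close (k n : ℕ) (s : ℝ) (h : |s| ≤ bnd k) : ‖trm n s - tr k n s‖ ≤ (1 / 2) ^ (k + 4) := by
  have h1 : Tendsto (fun j => ‖tr j n s - tr k n s‖) ult (𝓝 ‖trm n s - tr k n s‖) :=
    ((tr_tendsto_trm n s).sub_const _).norm
  apply le_of_tendsto h1
  apply ult_le
  filter_upwards [eventually_ge_atTop k] with j hj
  exact tr_close hj n s h

lemma trm_tendsto (s : ℝ) : Tendsto (fun n => trm n s) atTop (𝓝 0) := by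
  rw [Metric.tendsto_atTop]
  intro ε hε
  obtain ⟨m, hm⟩ := exists_pow_lt_of_lt_one (show 0 < ε / 2 by positivity)
    (by norm_num : (1:ℝ) / 2 < 1)
  obtain ⟨l, hl⟩ := exists_nat_ge |s|
  set k := max m l with hk
  have hs : |s| ≤ bnd k := by
    have h1 := bnd_ge k
    have h2 : (l:ℝ) ≤ k := by exact_mod_cast le_max_right m l
    linarith
  have hp : ((1:ℝ) / 2) ^ (k + 4) ≤ (1 / 2) ^ m :=
    pow_le_pow_of_le_one (by norm_num) (by norm_num) ((le_max_left m l).trans (by omega))
  obtain ⟨N, hN⟩ := (Metric.tendsto_atTop.1 (tr_tendsto k s)) (ε / 2) (by positivity)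
  refine ⟨N, fun n hn => ?_⟩
  have h1 := hN n hn
  rw [dist_zero_right] at h1 ⊢
  have h2 := trm_close k n s hs
  calc ‖trm n s‖ = ‖(trm n s - tr k n s) + tr k n s‖ := by congr 1; ring
    _ ≤ ‖trm n s - tr k n s‖ + ‖tr k n s‖ := norm_add_le _ _
    _ < (1 / 2) ^ m + ε / 2 := add_lt_add_of_le_of_lt (h2.trans hp) h1
    _ < ε := by linarith

lemma trm_freq_ge (k : ℕ) : 1 / 4 ≤ ‖trm 0 (freq k)‖ := by
  have h1 : Tendsto (fun j => ‖tr j 0 (freq k)‖) ult (𝓝 ‖trm 0 (freq k)‖) :=
    (tr_tendsto_trm 0 (freq k)).norm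
  apply ge_of_tendsto h1
  apply ult_le
  filter_upwards [eventually_gt_atTop k] with j hj
  exact tr_freq_ge hj

/-- The frequencies are unbounded. -/
lemma freq_ge (k : ℕ) : (k : ℝ) ≤ freq k := by
  by_contra hcon
  rw [not_le] at hcon
  have h1 := bnd_ge k
  have h2 : ‖tr k 0 0‖ ≤ (1 / 2) ^ (k + 5) := by
    apply tr_bound
    rw [abs_zero]
    linarith
  have c1 : ((1:ℝ) / 2) ^ (k + 5) ≤ 1 / 32 := by
    calc ((1:ℝ) / 2) ^ (k + 5) ≤ (1 / 2) ^ 5 :=
          pow_le_pow_of_le_one (by norm_num) (by norm_num) (by omega)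
      _ = 1 / 32 := by norm_num
  have h3 := mass_close k
  have h4 : ‖(1:ℂ)‖ ≤ ‖tr k 0 0‖ + ‖tr k 0 0 - 1‖ := by
    calc ‖(1:ℂ)‖ = ‖tr k 0 0 - (tr k 0 0 - 1)‖ := by congr 1; ring
      _ ≤ _ := norm_sub_le _ _
  rw [norm_one] at h4
  have h5 := h2.trans c1
  linarith

lemma freq_tendsto : Tendsto freq atTop atTop :=
  tendsto_atTop_mono freq_ge tendsto_natCast_atTop_atTop

end Pool.Agent.Lib.MP_ae9c87_an
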