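import Pool.Agent.Lib.MP_ae9c87_an.Limit

set_option autoImplicit false
open MeasureTheory Filter Topology Complex
open scoped ComplexConjugate

namespace Pool.Agent.Lib.MP_ae9c87_an

/-- The Hilbert space. -/
abbrev H : Type := Lp ℂ 2 mu

/-- Multiplication operators. -/
noncomputable def piOp : C(X, ℂ) →L[ℂ] (H →L[ℂ] H) :=
  ((ContinuousLinearMap.mul ℂ ℂ).holderL mu ⊤ 2 2).comp (ContinuousMap.toLp ⊤ mu ℂ)

lemma piOp_ae (g : C(X, ℂ)) (z : H) : piOp g z =ᵐ[mu] fun x => g x * z x := by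
  have h1 : piOp g z = (ContinuousLinearMap.mul ℂ ℂ).holder 2 (ContinuousMap.toLp ⊤ mu ℂ g) z := rfl
  rw [h1]
  filter_upwards [(ContinuousLinearMap.mul ℂ ℂ).coeFn_holder (r := 2)
    (ContinuousMap.toLp ⊤ mu ℂ g) z, ContinuousMap.coeFn_toLp (p := ⊤) (𝕜 := ℂ) mu g] with x hx hg
  rw [hx, hg]
  rfl

lemma piOp_mul (g h : C(X, ℂ)) (z : H) : piOp (g * h) z = piOp g (piOp h z) := by
  apply Lp.ext
  filter_upwards [piOp_ae (g * h) z, piOp_ae g (piOp h z), piOp_ae h z] with x h1 h2 h3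
  rw [h1, h2, h3, ContinuousMap.mul_apply]
  ring

lemma piOp_one (z : H) : piOp 1 z = z := by
  apply Lp.ext
  filter_upwards [piOp_ae 1 z] with x h1
  rw [h1]
  simp

lemma piOp_norm_le (g : C(X, ℂ)) (hg : ∀ x, ‖g x‖ ≤ 1) (z : H) : ‖piOp g z‖ ≤ ‖z‖ := by
  have h := Lp.norm_le_mul_norm_of_ae_le_mul (c := 1) (f := piOp g z) (g := z) (by
    filter_upwards [piOp_ae g z] with x hx
    rw [hx, norm_mul]
    exact mul_le_mul_of_nonneg_right (hg x) (norm_nonneg _))
  simpa using h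

/-- The characters `x ↦ exp (i s x)`. -/
noncomputable def ch (s : ℝ) : C(X, ℂ) := ⟨fun x => cexp (I * s * (x : ℝ)), by fun_prop⟩

lemma ch_apply (s : ℝ) (x : X) : ch s x = cexp (I * s * (x : ℝ)) := rfl

lemma ch_add (s t : ℝ) : ch (s + t) = ch s * ch t := by
  ext x
  rw [ContinuousMap.mul_apply, ch_apply, ch_apply, ch_apply, ← Complex.exp_add]
  congr 1
  push_cast
  ring

lemma ch_zero : ch 0 = 1 := by
  ext x
  simp [ch_apply]

lemma norm_ch (s : ℝ) (x : X) : ‖ch s x‖ = 1 := by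
  rw [ch_apply, Complex.norm_exp]
  simp

lemma ch_continuous : Continuous ch := by
  have h : Continuous (fun p : ℝ × X => cexp (I * p.1 * (p.2 : ℝ))) := by fun_prop
  exact (ContinuousMap.curry ⟨_, h⟩).continuous

/-- The unitary group. -/
noncomputable def T (t : ℝ) : H →L[ℂ] H := piOp (ch t)

lemma T_zero : T 0 = 1 := by
  ext1 z
  rw [T, ch_zero, piOp_one]
  rfl

lemma T_add (s t : ℝ) : T (s + t) = T s * T t := by
  ext1 z
  rw [T, ch_add, piOp_mul]
  rfl

lemma T_continuous (z : H) : Continuous (fun t => T t z) := by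
  have h1 : Continuous (fun t => piOp (ch t)) := piOp.continuous.comp ch_continuous
  exact (ContinuousLinearMap.apply ℂ H z).continuous.comp h1

lemma T_norm (t : ℝ) : ‖T t‖ ≤ 1 := by
  apply ContinuousLinearMap.opNorm_le_bound _ zero_le_one
  intro z
  rw [one_mul]
  exact piOp_norm_le _ (fun x => (norm_ch t x).le) z

lemma one_sub_ne' (x : X) : (1 - I * ((x : ℝ) : ℂ)) ≠ 0 := one_sub_ne x

/-- The resolvent symbol. -/
noncomputable def rs : C(X, ℂ) := ⟨fun x => 1 / (1 - I * ((x : ℝ) : ℂ)), by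
  apply Continuous.div
  · fun_prop
  · fun_prop
  · exact one_sub_ne'⟩

lemma ch_norm_le (t : ℝ) : ‖ch t‖ ≤ 1 := by
  rw [ContinuousMap.norm_le _ zero_le_one]
  exact fun x => (norm_ch t x).le

lemma laplace_integrable :
    IntegrableOn (fun t : ℝ => ((Real.exp (-t) : ℝ) : ℂ) • ch t) (Set.Ioi 0) := by
  have h1 : IntegrableOn (fun t : ℝ => Real.exp (-t)) (Set.Ioi 0) := integrableOn_exp_neg_Ioi 0
  refine Integrable.mono' h1 ?_ ?_
  · apply Continuous.aestronglyMeasurable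
    exact (by fun_prop : Continuous (fun t : ℝ => ((Real.exp (-t) : ℝ) : ℂ))).smul ch_continuous
  · apply Filter.Eventually.of_forall
    intro t
    rw [norm_smul, Complex.norm_real, Real.norm_eq_abs, abs_of_pos (Real.exp_pos _)]
    calc Real.exp (-t) * ‖ch t‖ ≤ Real.exp (-t) * 1 := by gcongr; exact ch_norm_le t
      _ = _ := mul_one _

lemma laplace_ch : ∫ t in Set.Ioi (0:ℝ), ((Real.exp (-t) : ℝ) : ℂ) • ch t = rs := by
  ext x
  have h1 := ContinuousLinearMap.integral_comp_comm (ContinuousMap.evalCLM ℂ x) laplace_integrable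
  have h2 : (ContinuousMap.evalCLM ℂ x) (∫ t in Set.Ioi (0:ℝ), ((Real.exp (-t) : ℝ) : ℂ) • ch t)
    = (∫ t in Set.Ioi (0:ℝ), ((Real.exp (-t) : ℝ) : ℂ) • ch t) x := rfl
  rw [← h2, ← h1]
  have h3 : ∀ t : ℝ, (ContinuousMap.evalCLM ℂ x) (((Real.exp (-t) : ℝ) : ℂ) • ch t)
      = cexp ((-1 + I * (x : ℝ)) * t) := by
    intro t
    have : (ContinuousMap.evalCLM ℂ x) (((Real.exp (-t) : ℝ) : ℂ) • ch t)
      = ((Real.exp (-t) : ℝ) : ℂ) * cexp (I * t * (x : ℝ)) := rfl
    rw [this, Complex.ofReal_exp, ← Complex.exp_add]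
    congr 1
    push_cast
    ring
  simp only [h3]
  rw [integral_exp_mul_complex_Ioi (by simp)]
  have h4 : rs x = 1 / (1 - I * ((x : ℝ) : ℂ)) := rfl
  rw [h4]
  have h5 := one_sub_ne' x
  have h6 : (-1 + I * ((x : ℝ) : ℂ)) ≠ 0 := by
    intro h
    apply h5
    linear_combination -h
  simp only [Complex.ofReal_zero, mul_zero, Complex.exp_zero]
  field_simp
  ring

lemma laplace_T (z : H) :
    ∫ t in Set.Ioi (0:ℝ), ((Real.exp (-t) : ℝ) : ℂ) • T t z = piOp rs z := by
  rw [← laplace_ch]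
  have h1 := ContinuousLinearMap.integral_comp_comm
    ((ContinuousLinearMap.apply ℂ H z).comp piOp) laplace_integrable
  have h2 : ((ContinuousLinearMap.apply ℂ H z).comp piOp)
      (∫ t in Set.Ioi (0:ℝ), ((Real.exp (-t) : ℝ) : ℂ) • ch t)
      = piOp (∫ t in Set.Ioi (0:ℝ), ((Real.exp (-t) : ℝ) : ℂ) • ch t) z := rfl
  rw [← h2, ← h1]
  congr 1
  ext1 t
  simp [T]

/-- The symbol of the cogenerator. -/
noncomputable def vs : C(X, ℂ) := 1 - (2 : ℂ) • rs

lemma vs_apply (x : X) : vs x = - w x := by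
  have h1 : vs x = 1 - 2 * (1 / (1 - I * ((x : ℝ) : ℂ))) := rfl
  rw [h1]
  unfold w
  have h5 := one_sub_ne' x
  field_simp
  ring

lemma V_eq (z : H) : z - (2 : ℂ) • ∫ t in Set.Ioi (0:ℝ), ((Real.exp (-t) : ℝ) : ℂ) • T t z
    = piOp vs z := by
  rw [laplace_T, vs, map_sub, map_smul]
  rw [sub_apply, smul_apply, piOp_one]

lemma V_iter (n : ℕ) (z : H) : (fun z : H => z - (2 : ℂ) •
    ∫ t in Set.Ioi (0:ℝ), ((Real.exp (-t) : ℝ) : ℂ) • T t z)^[n] z = piOp (vs ^ n) z := by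
  induction n with
  | zero => simp [piOp_one]
  | succ n ih =>
    rw [Function.iterate_succ_apply', ih, V_eq, ← piOp_mul, pow_succ']

/-- The vector given by the character. -/
noncomputable def ev (s : ℝ) : H := ContinuousMap.toLp 2 mu ℂ (ch s)

lemma piOp_toLp (g h : C(X, ℂ)) :
    piOp g (ContinuousMap.toLp 2 mu ℂ h) = ContinuousMap.toLp 2 mu ℂ (g * h) := by
  apply Lp.ext
  filter_upwards [piOp_ae g (ContinuousMap.toLp 2 mu ℂ h), ContinuousMap.coeFn_toLp (p := 2) (𝕜 := ℂ) mu h,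
    ContinuousMap.coeFn_toLp (p := 2) (𝕜 := ℂ) mu (g * h)] with x h1 h2 h3
  rw [h1, h2, h3]
  rfl

lemma inner_V (n : ℕ) (s r : ℝ) :
    inner ℂ (piOp (vs ^ n) (ev s)) (ev r) = conj ((-1) ^ n * trm n (s - r)) := by
  unfold ev
  rw [piOp_toLp, ContinuousMap.inner_toLp]
  unfold trm
  rw [← integral_const_mul, ← integral_conj]
  congr 1
  ext x
  rw [ContinuousMap.mul_apply, ContinuousMap.pow_apply, vs_apply, ch_apply, ch_apply]
  unfold osc
  have h1 : cexp (I * ((s - r : ℝ) : ℂ) * ((x : ℝ) : ℂ)) =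
      cexp (I * s * (x : ℝ)) * conj (cexp (I * r * (x : ℝ))) := by
    rw [← Complex.exp_conj, ← Complex.exp_add]
    congr 1
    simp
    ring
  rw [h1]
  simp only [map_mul, map_pow, map_neg, map_one, Complex.conj_conj]
  rw [neg_pow]
  ring

lemma inner_V_tendsto (s r : ℝ) :
    Tendsto (fun n : ℕ => inner ℂ (piOp (vs ^ n) (ev s)) (ev r)) atTop (𝓝 0) := by
  simp only [inner_V]
  rw [tendsto_zero_iff_norm_tendsto_zero]
  have h := (trm_tendsto (s - r)).norm
  rw [norm_zero] at h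
  refine h.congr (fun n => ?_)
  rw [RCLike.norm_conj, norm_mul, norm_pow, norm_neg, norm_one, one_pow, one_mul]

lemma inner_T (t : ℝ) : inner ℂ (T t (ev 0)) (ev 0) = conj (trm 0 t) := by
  unfold ev T
  rw [piOp_toLp, ContinuousMap.inner_toLp]
  unfold trm
  rw [← integral_conj]
  congr 1
  ext x
  rw [ContinuousMap.mul_apply, ch_zero, ch_apply]
  unfold osc
  simp

/-- The star subalgebra generated by the characters. -/
noncomputable def chAlg : StarSubalgebra ℂ C(X, ℂ) where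
  toSubalgebra := Algebra.adjoin ℂ (Set.range ch)
  star_mem' := by
    change Algebra.adjoin ℂ (Set.range ch) ≤ star (Algebra.adjoin ℂ (Set.range ch))
    refine Algebra.adjoin_le ?_
    rintro - ⟨s, rfl⟩
    refine Algebra.subset_adjoin ⟨-s, ?_⟩
    ext x
    change ch (-s) x = conj (ch s x)
    rw [ch_apply, ch_apply, ← Complex.exp_conj]
    congr 1
    simp

lemma chAlg_coe : Subalgebra.toSubmodule chAlg.toSubalgebra = Submodule.span ℂ (Set.range ch) := by
  apply Algebra.adjoin_eq_span_of_subset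
  refine Set.Subset.trans ?_ Submodule.subset_span
  intro x hx
  refine Submonoid.closure_induction (fun _ => id) ⟨0, ?_⟩ ?_ hx
  · exact ch_zero
  · rintro - - - - ⟨m, rfl⟩ ⟨n, rfl⟩
    exact ⟨m + n, ch_add m n⟩

lemma chAlg_separates : chAlg.SeparatesPoints := by
  intro x y hxy
  refine ⟨_, ⟨ch 1, Algebra.subset_adjoin ⟨1, rfl⟩, rfl⟩, ?_⟩
  intro h
  apply hxy
  have h' : cexp (I * (1:ℝ) * (x : ℝ)) = cexp (I * (1:ℝ) * (y : ℝ)) := h
  rw [Complex.exp_eq_exp_iff_exists_int] at h'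
  obtain ⟨m, hm⟩ := h'
  have h2 : (x : ℝ) = (y : ℝ) + m * (2 * Real.pi) := by
    have h3 := congrArg Complex.im hm
    simpa using h3
  have hx := x.2
  have hy := y.2
  have hpi := Real.pi_gt_three
  have hm0 : m = 0 := by
    by_contra hne
    have h1 : (1:ℝ) ≤ |(m:ℝ)| := by
      have : (1:ℤ) ≤ |m| := Int.one_le_abs hne
      exact_mod_cast this
    have h4 : |(m:ℝ) * (2 * Real.pi)| ≤ 1 := by
      rw [abs_le]
      constructor <;> linarith [hx.1, hx.2, hy.1, hy.2]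
    rw [abs_mul, abs_of_pos (by positivity : (0:ℝ) < 2 * Real.pi)] at h4
    nlinarith
  apply Subtype.ext
  rw [h2, hm0]
  simp

lemma span_ch : (Submodule.span ℂ (Set.range ch)).topologicalClosure = ⊤ := by
  rw [← chAlg_coe]
  exact congr_arg (Subalgebra.toSubmodule <| StarSubalgebra.toSubalgebra ·)
    (ContinuousMap.starSubalgebra_topologicalClosure_eq_top_of_separatesPoints chAlg
      chAlg_separates)

lemma span_ev : (Submodule.span ℂ (Set.range ev)).topologicalClosure = ⊤ := by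
  convert!
    (ContinuousMap.toLp_denseRange ℂ mu ℂ (p := 2) (by norm_num)).topologicalClosure_map_submodule
      span_ch
  rw [Submodule.map_span]
  unfold ev
  rw [Set.range_comp']
  simp only [ContinuousLinearMap.coe_coe]

end Pool.Agent.Lib.MP_ae9c87_an
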