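import Mathlib

set_option autoImplicit false
open MeasureTheory intervalIntegral Filter Topology Complex

namespace Pool.Agent.Lib.MP_ae9c87_an

/-- First derivative test for oscillatory integrals, with a decreasing phase derivative `p`. -/
lemma first_deriv_test {a b K : ℝ} (hab : a ≤ b) (hK : 0 < K)
    (F : ℝ → ℂ) (p p' : ℝ → ℝ)
    (hF : ∀ x ∈ Set.Icc a b, HasDerivAt F (I * (p x) * F x) x)
    (hF1 : ∀ x ∈ Set.Icc a b, ‖F x‖ ≤ 1)
    (hp : ∀ x ∈ Set.Icc a b, HasDerivAt p (p' x) x)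
    (hp'c : ContinuousOn p' (Set.Icc a b))
    (hp' : ∀ x ∈ Set.Icc a b, p' x ≤ 0)
    (hpK : (∀ x ∈ Set.Icc a b, K ≤ p x) ∨ (∀ x ∈ Set.Icc a b, p x ≤ -K)) :
    ‖∫ x in a..b, F x‖ ≤ 3 / K := by
  have hu : Set.uIcc a b = Set.Icc a b := Set.uIcc_of_le hab
  have hp0 : ∀ x ∈ Set.Icc a b, p x ≠ 0 := by
    intro x hx
    rcases hpK with h | h
    · have h1 := h x hx
      exact (lt_of_lt_of_le hK h1).ne'
    · have h1 := h x hx
      exact (lt_of_le_of_lt h1 (by linarith)).ne
  have hFc : ContinuousOn F (Set.Icc a b) := fun x hx => (hF x hx).continuousAt.continuousWithinAt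
  have hpc : ContinuousOn p (Set.Icc a b) := fun x hx => (hp x hx).continuousAt.continuousWithinAt
  obtain ⟨u, hu_def⟩ : ∃ u : ℝ → ℂ, u = fun x => -I * ((1 / p x : ℝ) : ℂ) := ⟨_, rfl⟩
  obtain ⟨u', hu'_def⟩ : ∃ u' : ℝ → ℂ, u' = fun x => I * ((p' x / (p x) ^ 2 : ℝ) : ℂ) := ⟨_, rfl⟩
  have hud : ∀ x ∈ Set.Icc a b, HasDerivAt u (u' x) x := by
    intro x hx
    have h1 : HasDerivAt (fun x => (1 / p x : ℝ)) (-(p' x) / (p x) ^ 2) x := by
      simp only [one_div]
      exact (hp x hx).fun_inv (hp0 x hx)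
    have h2 : HasDerivAt (fun x => ((1 / p x : ℝ) : ℂ)) ((-(p' x) / (p x) ^ 2 : ℝ) : ℂ) x :=
      h1.ofReal_comp
    have h3 := h2.const_mul (-I)
    rw [hu_def, hu'_def]
    refine h3.congr_deriv ?_
    push_cast
    ring
  have hprod : ∀ x ∈ Set.Icc a b, HasDerivAt (fun x => u x * F x) (u' x * F x + F x) x := by
    intro x hx
    have h := (hud x hx).fun_mul (hF x hx)
    refine h.congr_deriv ?_
    have hpx : ((p x : ℝ) : ℂ) ≠ 0 := by exact_mod_cast hp0 x hx
    rw [hu_def]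
    push_cast
    field_simp
    rw [I_sq]
    ring
  have hu'c : ContinuousOn u' (Set.Icc a b) := by
    rw [hu'_def]
    apply ContinuousOn.mul continuousOn_const
    apply Complex.continuous_ofReal.comp_continuousOn
    exact hp'c.div (hpc.pow 2) (fun x hx => pow_ne_zero 2 (hp0 x hx))
  have hint1 : IntervalIntegrable (fun x => u' x * F x) volume a b := by
    apply ContinuousOn.intervalIntegrable
    rw [hu]
    exact hu'c.mul hFc
  have hint2 : IntervalIntegrable F volume a b := by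
    apply ContinuousOn.intervalIntegrable
    rw [hu]
    exact hFc
  have hFTC : ∫ x in a..b, (u' x * F x + F x) = u b * F b - u a * F a := by
    apply integral_eq_sub_of_hasDerivAt
    · intro x hx
      rw [hu] at hx
      exact hprod x hx
    · exact hint1.add hint2
  rw [integral_add hint1 hint2] at hFTC
  have hEq : ∫ x in a..b, F x = u b * F b - u a * F a - ∫ x in a..b, u' x * F x := by
    rw [← hFTC]; ring
  have ha : a ∈ Set.Icc a b := ⟨le_refl _, hab⟩
  have hb : b ∈ Set.Icc a b := ⟨hab, le_refl _⟩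
  have habs : ∀ x ∈ Set.Icc a b, K ≤ |p x| := by
    intro x hx
    rcases hpK with h | h
    · exact le_trans (h x hx) (le_abs_self _)
    · have := h x hx
      rw [abs_of_neg (by linarith)]
      linarith
  have hub : ∀ x ∈ Set.Icc a b, ‖u x * F x‖ ≤ 1 / K := by
    intro x hx
    rw [norm_mul]
    have h1 : ‖u x‖ ≤ 1 / K := by
      simp only [hu_def, norm_mul, norm_neg, norm_I, one_mul, Complex.norm_real, Real.norm_eq_abs,
        abs_div, abs_one]
      exact one_div_le_one_div_of_le hK (habs x hx)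
    calc ‖u x‖ * ‖F x‖ ≤ (1 / K) * 1 := mul_le_mul h1 (hF1 x hx) (norm_nonneg _) (by positivity)
      _ = 1 / K := mul_one _
  -- the remaining integral
  have hI : ‖∫ x in a..b, u' x * F x‖ ≤ 1 / p b - 1 / p a := by
    have hle : ‖∫ x in a..b, u' x * F x‖ ≤ ∫ x in a..b, -(p' x) / (p x) ^ 2 := by
      apply intervalIntegral.norm_integral_le_of_norm_le hab
      · apply Filter.Eventually.of_forall
        intro x hx
        have hx' : x ∈ Set.Icc a b := ⟨hx.1.le, hx.2⟩
        rw [norm_mul]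
        have h1 : ‖u' x‖ = -(p' x) / (p x) ^ 2 := by
          simp only [hu'_def, norm_mul, norm_I, one_mul, Complex.norm_real, Real.norm_eq_abs,
            abs_div, abs_pow, sq_abs]
          rw [abs_of_nonpos (hp' x hx')]
        rw [h1]
        have h2 : 0 ≤ -(p' x) / (p x) ^ 2 := by
          apply div_nonneg
          · linarith [hp' x hx']
          · positivity
        calc -(p' x) / (p x) ^ 2 * ‖F x‖ ≤ -(p' x) / (p x) ^ 2 * 1 :=
              mul_le_mul_of_nonneg_left (hF1 x hx') h2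
          _ = _ := mul_one _
      · apply ContinuousOn.intervalIntegrable
        rw [hu]
        exact hp'c.neg.div (hpc.pow 2) (fun x hx => pow_ne_zero 2 (hp0 x hx))
    have hval : ∫ x in a..b, -(p' x) / (p x) ^ 2 = 1 / p b - 1 / p a := by
      apply integral_eq_sub_of_hasDerivAt (f := fun x => 1 / p x)
      · intro x hx
        rw [hu] at hx
        simp only [one_div]
        exact (hp x hx).fun_inv (hp0 x hx)
      · apply ContinuousOn.intervalIntegrable
        rw [hu]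
        exact hp'c.neg.div (hpc.pow 2) (fun x hx => pow_ne_zero 2 (hp0 x hx))
    rw [hval] at hle
    exact hle
  have hI2 : 1 / p b - 1 / p a ≤ 1 / K := by
    rcases hpK with h | h
    · have h1 : 1 / p b ≤ 1 / K := one_div_le_one_div_of_le hK (h b hb)
      have h2 : 0 ≤ 1 / p a := by
        have := h a ha
        apply div_nonneg zero_le_one; linarith
      linarith
    · have h1 : 1 / p b ≤ 0 := by
        have := h b hb
        apply div_nonpos_of_nonneg_of_nonpos zero_le_one; linarith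
      have h2 : -(1 / p a) ≤ 1 / K := by
        have := h a ha
        rw [← one_div_neg_eq_neg_one_div]
        apply one_div_le_one_div_of_le hK; linarith
      linarith
  rw [hEq]
  calc ‖u b * F b - u a * F a - ∫ x in a..b, u' x * F x‖
      ≤ ‖u b * F b - u a * F a‖ + ‖∫ x in a..b, u' x * F x‖ := norm_sub_le _ _
    _ ≤ (‖u b * F b‖ + ‖u a * F a‖) + ‖∫ x in a..b, u' x * F x‖ := by
        gcongr; exact norm_sub_le _ _
    _ ≤ (1 / K + 1 / K) + 1 / K := by
        gcongr
        · exact hub b hb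
        · exact hub a ha
        · exact hI.trans hI2
    _ = 3 / K := by ring

/-- The (negative of the) Cayley transform of `x`. -/
noncomputable def w (x : ℝ) : ℂ := (1 + I * x) / (1 - I * x)

lemma one_sub_ne (x : ℝ) : (1 - I * x : ℂ) ≠ 0 := by
  intro h
  have := congrArg Complex.re h
  simp at this

lemma one_add_ne (x : ℝ) : (1 + I * x : ℂ) ≠ 0 := by
  intro h
  have := congrArg Complex.re h
  simp at this

lemma norm_w (x : ℝ) : ‖w x‖ = 1 := by
  unfold w
  have h : (1 - I * (x : ℂ)) = (starRingEnd ℂ) (1 + I * x) := by simp [sub_eq_add_neg]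
  rw [norm_div, h, RCLike.norm_conj, div_self]
  exact norm_ne_zero_iff.mpr (one_add_ne x)

lemma sq_ne (x : ℝ) : (1 + (x : ℂ) ^ 2) ≠ 0 := by
  have h : (1 + (x : ℂ) ^ 2) = (1 + I * x) * (1 - I * x) := by
    ring_nf
    rw [I_sq]; ring
  rw [h]
  exact mul_ne_zero (one_add_ne x) (one_sub_ne x)

lemma hasDerivAt_w (x : ℝ) : HasDerivAt w (I * ((2 / (1 + x ^ 2) : ℝ) : ℂ) * w x) x := by
  have h0 : HasDerivAt (fun y : ℝ => (y : ℂ)) 1 x := Complex.ofRealCLM.hasDerivAt
  have h1 : HasDerivAt (fun y : ℝ => (1 + I * (y : ℂ))) (I * 1) x :=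
    (h0.const_mul I).const_add 1
  have h2 : HasDerivAt (fun y : ℝ => (1 - I * (y : ℂ))) (-(I * 1)) x :=
    (h0.const_mul I).const_sub 1
  have h3 := h1.fun_div h2 (one_sub_ne x)
  refine h3.congr_deriv ?_
  unfold w
  have e1 := one_sub_ne x
  have e2 := one_add_ne x
  have e3 := sq_ne x
  have h : (1 + (x : ℂ) ^ 2) = (1 + I * x) * (1 - I * x) := by
    ring_nf
    rw [I_sq]; ring
  push_cast
  rw [h]
  field_simp
  ring

/-- The oscillating integrand. -/
noncomputable def osc (n : ℕ) (q : ℝ) (x : ℝ) : ℂ := w x ^ n * cexp (I * q * x)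

/-- The derivative of its phase. -/
noncomputable def ph (n : ℕ) (q : ℝ) (x : ℝ) : ℝ := 2 * n / (1 + x ^ 2) + q

noncomputable def ph' (n : ℕ) (x : ℝ) : ℝ := -(4 * n * x / (1 + x ^ 2) ^ 2)

lemma norm_osc (n : ℕ) (q x : ℝ) : ‖osc n q x‖ = 1 := by
  unfold osc
  rw [norm_mul, norm_pow, norm_w, one_pow, one_mul, Complex.norm_exp]
  simp

lemma hasDerivAt_osc (n : ℕ) (q x : ℝ) :
    HasDerivAt (osc n q) (I * (ph n q x) * osc n q x) x := by
  have h0 : HasDerivAt (fun y : ℝ => (y : ℂ)) 1 x := Complex.ofRealCLM.hasDerivAt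
  have h1 : HasDerivAt (fun y : ℝ => cexp (I * q * y)) (cexp (I * q * x) * (I * q * 1)) x :=
    (h0.const_mul (I * q)).cexp
  have h2 := ((hasDerivAt_w x).fun_pow n).fun_mul h1
  refine h2.congr_deriv ?_
  unfold osc ph
  push_cast
  rcases n with _ | m
  · simp
    ring
  · have e3 := sq_ne x
    simp only [Nat.add_sub_cancel]
    push_cast
    field_simp
    ring

lemma hasDerivAt_ph (n : ℕ) (q x : ℝ) : HasDerivAt (ph n q) (ph' n x) x := by
  have h0 : (1 + x ^ 2 : ℝ) ≠ 0 := by positivity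
  have h1 : HasDerivAt (fun y : ℝ => 1 + y ^ 2) (2 * x) x := by
    have := ((hasDerivAt_id x).fun_pow 2).const_add 1
    refine this.congr_deriv ?_
    simp
  have h2 := ((hasDerivAt_const x (2 * (n : ℝ))).fun_div h1 h0).add_const q
  refine h2.congr_deriv ?_
  unfold ph'
  field_simp
  ring

lemma continuous_ph' (n : ℕ) : Continuous (ph' n) := by
  unfold ph'
  apply Continuous.neg
  apply Continuous.div
  · fun_prop
  · fun_prop
  · intro x; positivity

lemma continuous_osc (n : ℕ) (q : ℝ) : Continuous (osc n q) :=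
  continuous_iff_continuousAt.mpr fun x => (hasDerivAt_osc n q x).continuousAt

lemma ph'_le {n : ℕ} {x : ℝ} (hx : x ∈ Set.Icc (1:ℝ) 2) : ph' n x ≤ -(8 / 25 * n) := by
  unfold ph'
  have h1 : (0:ℝ) < (1 + x ^ 2) ^ 2 := by positivity
  have h2 : (8:ℝ) / 25 ≤ 4 * x / (1 + x ^ 2) ^ 2 := by
    rw [div_le_div_iff₀ (by norm_num) h1]
    obtain ⟨ha, hb⟩ := hx
    nlinarith [mul_nonneg (sub_nonneg.2 ha) (sub_nonneg.2 hb), mul_nonneg (mul_nonneg (sub_nonneg.2 ha) (sub_nonneg.2 hb)) (by linarith : (0:ℝ) ≤ x), mul_nonneg (mul_nonneg (sub_nonneg.2 ha) (sub_nonneg.2 hb)) (sq_nonneg x)]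
  have h3 : 4 * (n:ℝ) * x / (1 + x ^ 2) ^ 2 = n * (4 * x / (1 + x ^ 2) ^ 2) := by ring
  rw [h3]
  have hn : (0:ℝ) ≤ n := Nat.cast_nonneg n
  nlinarith [mul_le_mul_of_nonneg_left h2 hn]

lemma ph_antitone (n : ℕ) (q : ℝ) {x y : ℝ} (hx : 1 ≤ x) (hxy : x ≤ y) (hy : y ≤ 2) :
    ph n q y ≤ ph n q x - 8 / 25 * n * (y - x) := by
  have hder : ∀ z, HasDerivAt (fun z => ph n q z + 8 / 25 * n * z) (ph' n z + 8 / 25 * n) z := by
    intro z
    have h := (hasDerivAt_ph n q z).fun_add ((hasDerivAt_id z).const_mul (8 / 25 * (n:ℝ)))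
    refine h.congr_deriv ?_
    simp
  have hanti : AntitoneOn (fun z => ph n q z + 8 / 25 * n * z) (Set.Icc 1 2) := by
    apply antitoneOn_of_deriv_nonpos (convex_Icc 1 2)
    · exact fun z _ => (hder z).continuousAt.continuousWithinAt
    · exact fun z _ => (hder z).differentiableAt.differentiableWithinAt
    · intro z hz
      rw [interior_Icc] at hz
      rw [(hder z).deriv]
      have := ph'_le (n := n) (x := z) ⟨hz.1.le, hz.2.le⟩
      linarith
  have h := hanti ⟨hx, hxy.trans hy⟩ ⟨hx.trans hxy, hy⟩ hxy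
  simp only at h
  linarith

/-- There is a point `c` of `[1,2]` where the phase is (nearly) stationary. -/
lemma exists_stationary (n : ℕ) (q : ℝ) : ∃ c ∈ Set.Icc (1:ℝ) 2,
    (∀ x ∈ Set.Icc (1:ℝ) 2, x < c → 8 / 25 * n * (c - x) ≤ ph n q x) ∧
    (∀ x ∈ Set.Icc (1:ℝ) 2, c < x → ph n q x ≤ -(8 / 25 * n * (x - c))) := by
  rcases le_or_gt (ph n q 1) 0 with h1 | h1
  · refine ⟨1, ⟨le_refl _, by norm_num⟩, ?_, ?_⟩
    · intro x hx h
      exact absurd h (not_lt.mpr hx.1)
    · intro x hx _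
      have := ph_antitone n q (le_refl 1) hx.1 hx.2
      linarith
  rcases le_or_gt 0 (ph n q 2) with h2 | h2
  · refine ⟨2, ⟨by norm_num, le_refl _⟩, ?_, ?_⟩
    · intro x hx _
      have := ph_antitone n q hx.1 hx.2 (le_refl 2)
      linarith
    · intro x hx h
      exact absurd h (not_lt.mpr hx.2)
  have hcont : ContinuousOn (ph n q) (Set.Icc 1 2) :=
    fun z _ => (hasDerivAt_ph n q z).continuousAt.continuousWithinAt
  have hivt := intermediate_value_Icc' (by norm_num : (1:ℝ) ≤ 2) hcont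
  obtain ⟨c, hc, hc0⟩ := hivt ⟨h2.le, h1.le⟩
  refine ⟨c, hc, ?_, ?_⟩
  · intro x hx hxc
    have := ph_antitone n q hx.1 hxc.le hc.2
    linarith
  · intro x hx hxc
    have := ph_antitone n q hc.1 hxc.le hx.2
    linarith

/-- Interval version of the first derivative test for `osc`. -/
lemma osc_first {n : ℕ} {q a b K : ℝ} (ha : 1 ≤ a) (hab : a ≤ b) (hb : b ≤ 2) (hK : 0 < K)
    (hpK : (∀ x ∈ Set.Icc a b, K ≤ ph n q x) ∨ (∀ x ∈ Set.Icc a b, ph n q x ≤ -K)) :
    ‖∫ x in a..b, osc n q x‖ ≤ 3 / K := by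
  apply first_deriv_test hab hK (osc n q) (ph n q) (ph' n)
  · exact fun x _ => hasDerivAt_osc n q x
  · exact fun x _ => (norm_osc n q x).le
  · exact fun x _ => hasDerivAt_ph n q x
  · exact (continuous_ph' n).continuousOn
  · intro x hx
    have h1 := ph'_le (n := n) (x := x) ⟨ha.trans hx.1, hx.2.trans hb⟩
    have hn : (0:ℝ) ≤ n := Nat.cast_nonneg n
    linarith
  · exact hpK

/-- van der Corput: second derivative bound. -/
lemma osc_second {n : ℕ} (hn : 1 ≤ n) (q : ℝ) :
    ‖∫ x in (1:ℝ)..2, osc n q x‖ ≤ 21 / Real.sqrt n := by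
  obtain ⟨c, hc, hL, hR⟩ := exists_stationary n q
  have hn0 : (0:ℝ) < n := by exact_mod_cast hn
  have hs : 0 < Real.sqrt n := Real.sqrt_pos.mpr hn0
  have hss : Real.sqrt n * Real.sqrt n = n := Real.mul_self_sqrt hn0.le
  obtain ⟨δ, hδ⟩ : ∃ δ : ℝ, δ = 1 / Real.sqrt n := ⟨_, rfl⟩
  have hδ0 : 0 < δ := by rw [hδ]; positivity
  obtain ⟨K, hK⟩ : ∃ K : ℝ, K = 8 / 25 * Real.sqrt n := ⟨_, rfl⟩
  have hK0 : 0 < K := by rw [hK]; positivity
  have hKδ : 8 / 25 * n * δ = K := by
    rw [hK, hδ]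
    field_simp
    nlinarith
  have hii : ∀ a b : ℝ, IntervalIntegrable (osc n q) volume a b :=
    fun a b => (continuous_osc n q).intervalIntegrable a b
  obtain ⟨a', ha'⟩ : ∃ a' : ℝ, a' = max 1 (c - δ) := ⟨_, rfl⟩
  obtain ⟨b', hb'⟩ : ∃ b' : ℝ, b' = min 2 (c + δ) := ⟨_, rfl⟩
  have ha1 : 1 ≤ a' := by rw [ha']; exact le_max_left _ _
  have hac : a' ≤ c := by rw [ha']; exact max_le hc.1 (by linarith)
  have hb2 : b' ≤ 2 := by rw [hb']; exact min_le_left _ _
  have hcb : c ≤ b' := by rw [hb']; exact le_min hc.2 (by linarith)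
  have hsplit : ∫ x in (1:ℝ)..2, osc n q x = (∫ x in (1:ℝ)..a', osc n q x) +
      (∫ x in a'..b', osc n q x) + (∫ x in b'..2, osc n q x) := by
    rw [integral_add_adjacent_intervals (hii _ _) (hii _ _),
      integral_add_adjacent_intervals (hii _ _) (hii _ _)]
  have h1 : ‖∫ x in (1:ℝ)..a', osc n q x‖ ≤ 3 / K := by
    rcases le_or_gt (c - δ) 1 with h | h
    · have : a' = 1 := by rw [ha']; exact max_eq_left h
      rw [this, intervalIntegral.integral_same, norm_zero]
      positivity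
    · have hac' : a' = c - δ := by rw [ha']; exact max_eq_right h.le
      apply osc_first (le_refl 1) ha1 (hac.trans hc.2) hK0
      left
      intro x hx
      have hx2 : x ≤ c - δ := hac' ▸ hx.2
      have h3 := hL x ⟨hx.1, by linarith [hc.2]⟩ (by linarith)
      have h4 : 8 / 25 * (n:ℝ) * δ ≤ 8 / 25 * n * (c - x) := by
        apply mul_le_mul_of_nonneg_left _ (by positivity)
        linarith
      linarith
  have h2 : ‖∫ x in b'..2, osc n q x‖ ≤ 3 / K := by
    rcases le_or_gt 2 (c + δ) with h | h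
    · have : b' = 2 := by rw [hb']; exact min_eq_left h
      rw [this, intervalIntegral.integral_same, norm_zero]
      positivity
    · have hbc' : b' = c + δ := by rw [hb']; exact min_eq_right h.le
      apply osc_first (hc.1.trans hcb) hb2 (le_refl 2) hK0
      right
      intro x hx
      have hx2 : c + δ ≤ x := hbc' ▸ hx.1
      have h3 := hR x ⟨by linarith [hc.1], hx.2⟩ (by linarith)
      have h4 : 8 / 25 * (n:ℝ) * δ ≤ 8 / 25 * n * (x - c) := by
        apply mul_le_mul_of_nonneg_left _ (by positivity)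
        linarith
      linarith
  have h3 : ‖∫ x in a'..b', osc n q x‖ ≤ 2 * δ := by
    have h4 : ‖∫ x in a'..b', osc n q x‖ ≤ 1 * |b' - a'| :=
      intervalIntegral.norm_integral_le_of_norm_le_const (fun x _ => (norm_osc n q x).le)
    have h5 : |b' - a'| ≤ 2 * δ := by
      rw [abs_of_nonneg (by linarith)]
      have h6 : b' ≤ c + δ := by rw [hb']; exact min_le_right _ _
      have h7 : c - δ ≤ a' := by rw [ha']; exact le_max_right _ _
      linarith
    linarith
  rw [hsplit]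
  calc ‖(∫ x in (1:ℝ)..a', osc n q x) + (∫ x in a'..b', osc n q x) + (∫ x in b'..2, osc n q x)‖
      ≤ ‖∫ x in (1:ℝ)..a', osc n q x‖ + ‖∫ x in a'..b', osc n q x‖ + ‖∫ x in b'..2, osc n q x‖ :=
        norm_add₃_le
    _ ≤ 3 / K + 2 * δ + 3 / K := by gcongr
    _ ≤ 21 / Real.sqrt n := by
        rw [hK, hδ]
        rw [le_div_iff₀ hs]
        field_simp
        norm_num

/-- The case of a dominant linear term. -/
lemma osc_linear {n : ℕ} {q : ℝ} (hq : 0 < |q|) (hnq : 4 * (n:ℝ) ≤ |q|) :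
    ‖∫ x in (1:ℝ)..2, osc n q x‖ ≤ 4 / |q| := by
  have hn0 : (0:ℝ) ≤ n := Nat.cast_nonneg n
  have hb : ∀ x ∈ Set.Icc (1:ℝ) 2, 0 ≤ 2 * (n:ℝ) / (1 + x ^ 2) ∧ 2 * (n:ℝ) / (1 + x ^ 2) ≤ n := by
    intro x hx
    constructor
    · positivity
    · rw [div_le_iff₀ (by positivity)]
      have : 1 ≤ x ^ 2 := by nlinarith [hx.1]
      nlinarith
  have h := osc_first (n := n) (q := q) (K := 3 / 4 * |q|) (le_refl 1) (by norm_num) (le_refl 2)
    (by positivity) ?_
  · refine h.trans (le_of_eq ?_)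
    field_simp
  · rcases le_or_gt 0 q with h0 | h0
    · left
      intro x hx
      rw [abs_of_nonneg h0]
      have := (hb x hx).1
      unfold ph
      linarith
    · right
      intro x hx
      rw [abs_of_neg h0] at hnq ⊢
      have := (hb x hx).2
      unfold ph
      linarith

/-- Uniform decay: the Fourier transform of the curve `x ↦ (2 arctan x, x)` tends to `0`. -/
lemma osc_decay (ε : ℝ) (hε : 0 < ε) : ∃ R : ℝ, ∀ n : ℕ, ∀ q : ℝ, (R ≤ n ∨ R ≤ |q|) →
    ‖∫ x in (1:ℝ)..2, osc n q x‖ ≤ ε := by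
  refine ⟨4 * ((21 / ε) ^ 2 + 1 / ε + 1), ?_⟩
  intro n q h
  have hp1 : 0 < 1 / ε := by positivity
  have hp2 : 0 < (21 / ε) ^ 2 := by positivity
  have key : ∀ m : ℕ, (21 / ε) ^ 2 + 1 / ε + 1 ≤ m → 21 / Real.sqrt m ≤ ε := by
    intro m hm
    have hm0 : (0:ℝ) < m := by linarith
    rw [div_le_iff₀ (Real.sqrt_pos.mpr hm0)]
    have h1 : 21 / ε ≤ Real.sqrt m := by
      apply Real.le_sqrt_of_sq_le
      linarith
    rw [div_le_iff₀ hε] at h1
    linarith
  by_cases hbig : (21 / ε) ^ 2 + 1 / ε + 1 ≤ n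
  · have hn1 : 1 ≤ n := by
      have : (1:ℝ) ≤ n := by linarith
      exact_mod_cast this
    exact (osc_second hn1 q).trans (key n hbig)
  · rw [not_le] at hbig
    have hq : 4 * ((21 / ε) ^ 2 + 1 / ε + 1) ≤ |q| := by
      rcases h with h | h
      · linarith
      · exact h
    have hq0 : 0 < |q| := by linarith
    have h1 := osc_linear (n := n) hq0 (by linarith)
    refine h1.trans ?_
    rw [div_le_iff₀ hq0]
    have h2 : 4 * (1 / ε) ≤ |q| := by linarith
    have h3 : ε * (4 * (1 / ε)) = 4 := by field_simp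
    nlinarith

end Pool.Agent.Lib.MP_ae9c87_an
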