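import Pool.Agent.Lib.MP_ae9c87_an.Osc

set_option autoImplicit false
open MeasureTheory intervalIntegral Filter Topology Complex

namespace Pool.Agent.Lib.MP_ae9c87_an

/-- Amplitudes `f` for which the oscillating integrals decay uniformly. -/
def Good (f : ℝ → ℂ) : Prop := Continuous f ∧ ∀ ε : ℝ, 0 < ε → ∃ R : ℝ, ∀ n : ℕ, ∀ q : ℝ,
  (R ≤ n ∨ R ≤ |q|) → ‖∫ x in (1:ℝ)..2, osc n q x * f x‖ ≤ ε

lemma good_one : Good (fun _ => 1) := by
  refine ⟨continuous_const, fun ε hε => ?_⟩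
  obtain ⟨R, hR⟩ := osc_decay ε hε
  exact ⟨R, fun n q h => by simpa using hR n q h⟩

lemma osc_int {f : ℝ → ℂ} (hf : Continuous f) (n : ℕ) (q a b : ℝ) :
    IntervalIntegrable (fun x => osc n q x * f x) volume a b :=
  ((continuous_osc n q).mul hf).intervalIntegrable a b

lemma Good.add {f g : ℝ → ℂ} (hf : Good f) (hg : Good g) : Good (fun x => f x + g x) := by
  refine ⟨hf.1.add hg.1, fun ε hε => ?_⟩
  obtain ⟨R₁, h₁⟩ := hf.2 (ε / 2) (by positivity)
  obtain ⟨R₂, h₂⟩ := hg.2 (ε / 2) (by positivity)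
  refine ⟨max R₁ R₂, fun n q h => ?_⟩
  have e : ∫ x in (1:ℝ)..2, osc n q x * (f x + g x) =
      (∫ x in (1:ℝ)..2, osc n q x * f x) + ∫ x in (1:ℝ)..2, osc n q x * g x := by
    rw [← intervalIntegral.integral_add (osc_int hf.1 n q 1 2) (osc_int hg.1 n q 1 2)]
    simp only [mul_add]
  rw [e]
  have a1 := h₁ n q (h.imp (le_trans (le_max_left _ _)) (le_trans (le_max_left _ _)))
  have a2 := h₂ n q (h.imp (le_trans (le_max_right _ _)) (le_trans (le_max_right _ _)))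
  calc _ ≤ _ := norm_add_le _ _
    _ ≤ ε / 2 + ε / 2 := add_le_add a1 a2
    _ = ε := by ring

lemma Good.const_mul {f : ℝ → ℂ} (hf : Good f) (c : ℂ) : Good (fun x => c * f x) := by
  refine ⟨continuous_const.mul hf.1, fun ε hε => ?_⟩
  obtain ⟨R, h⟩ := hf.2 (ε / (‖c‖ + 1)) (by positivity)
  refine ⟨R, fun n q hq => ?_⟩
  have e : ∫ x in (1:ℝ)..2, osc n q x * (c * f x) = c * ∫ x in (1:ℝ)..2, osc n q x * f x := by
    rw [← intervalIntegral.integral_const_mul]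
    congr 1
    ext x
    ring
  rw [e, norm_mul]
  have a1 := h n q hq
  calc ‖c‖ * _ ≤ ‖c‖ * (ε / (‖c‖ + 1)) := by gcongr
    _ ≤ (‖c‖ + 1) * (ε / (‖c‖ + 1)) := by gcongr; linarith
    _ = ε := by field_simp

lemma osc_mul_exp (n : ℕ) (q s x : ℝ) (z : ℂ) :
    osc n q x * (cexp (I * s * x) * z) = osc n (q + s) x * z := by
  unfold osc
  have : cexp (I * ((q + s : ℝ) : ℂ) * x) = cexp (I * q * x) * cexp (I * s * x) := by
    rw [← Complex.exp_add]
    congr 1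
    push_cast
    ring
  rw [this]
  ring

lemma Good.exp_mul {f : ℝ → ℂ} (hf : Good f) (s : ℝ) :
    Good (fun x => cexp (I * s * x) * f x) := by
  refine ⟨by have := hf.1; fun_prop, fun ε hε => ?_⟩
  obtain ⟨R, h⟩ := hf.2 ε hε
  refine ⟨R + |s|, fun n q hq => ?_⟩
  simp only [osc_mul_exp]
  apply h
  rcases hq with hq | hq
  · left
    have := abs_nonneg s
    linarith
  · right
    have : |q| ≤ |q + s| + |s| := by
      calc |q| = |(q + s) - s| := by ring_nf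
        _ ≤ |q + s| + |s| := abs_sub _ _
    linarith

lemma cos_expand (f q x : ℝ) : ((f * (1 + Real.cos (q * x)) : ℝ) : ℂ) =
    (f : ℂ) + ((1 / 2 : ℂ) * (cexp (I * q * x) * f) + (1 / 2 : ℂ) * (cexp (I * (-q : ℝ) * x) * f)) := by
  push_cast
  rw [Complex.cos]
  have h1 : (q : ℂ) * x * I = I * q * x := by ring
  have h2 : -((q : ℂ) * x) * I = I * (-q) * x := by ring
  rw [h1, h2]
  ring

lemma Good.cos_mul {f : ℝ → ℝ} (hf : Good (fun x => (f x : ℂ))) (q : ℝ) :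
    Good (fun x => ((f x * (1 + Real.cos (q * x)) : ℝ) : ℂ)) := by
  simp only [cos_expand]
  exact hf.add (((hf.exp_mul q).const_mul _).add ((hf.exp_mul (-q)).const_mul _))

/-- One stage of the construction: a nonnegative good density and a real bound `S`. -/
def Stage : Type := {p : (ℝ → ℝ) × ℝ // Good (fun x => (p.1 x : ℂ)) ∧ (∀ x, 0 ≤ p.1 x)}

lemma step_exists (k : ℕ) (s : Stage) : ∃ q : ℝ, 0 ≤ q ∧ ∀ n : ℕ, ∀ t : ℝ, q - s.1.2 ≤ |t| →
    ‖∫ x in (1:ℝ)..2, osc n t x * (s.1.1 x : ℂ)‖ ≤ (1 / 2) ^ (k + 5) := by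
  obtain ⟨R, hR⟩ := s.2.1.2 ((1 / 2) ^ (k + 5)) (by positivity)
  refine ⟨|R| + |s.1.2|, by positivity, fun n t ht => hR n t (Or.inr ?_)⟩
  have h1 := le_abs_self R
  have h2 := le_abs_self s.1.2
  linarith

noncomputable def stepq (k : ℕ) (s : Stage) : ℝ := Classical.choose (step_exists k s)

lemma stepq_spec (k : ℕ) (s : Stage) : 0 ≤ stepq k s ∧ ∀ n : ℕ, ∀ t : ℝ,
    stepq k s - s.1.2 ≤ |t| →
    ‖∫ x in (1:ℝ)..2, osc n t x * (s.1.1 x : ℂ)‖ ≤ (1 / 2) ^ (k + 5) :=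
  Classical.choose_spec (step_exists k s)

noncomputable def next (k : ℕ) (s : Stage) : Stage :=
  ⟨(fun x => s.1.1 x * (1 + Real.cos (stepq k s * x)), s.1.2 + stepq k s + 1), by
    refine ⟨s.2.1.cos_mul _, fun x => ?_⟩
    have h1 := s.2.2 x
    have h2 := Real.neg_one_le_cos (stepq k s * x)
    exact mul_nonneg h1 (by linarith)⟩

noncomputable def stage : ℕ → Stage
  | 0 => ⟨(fun _ => 1, 1), by
      refine ⟨?_, fun x => zero_le_one⟩
      simpa using good_one⟩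
  | k + 1 => next k (stage k)

/-- densities of the Riesz products -/
noncomputable def dens (k : ℕ) : ℝ → ℝ := (stage k).1.1
/-- frequencies of the Riesz products -/
noncomputable def freq (k : ℕ) : ℝ := stepq k (stage k)
noncomputable def bnd (k : ℕ) : ℝ := (stage k).1.2

lemma dens_zero (x : ℝ) : dens 0 x = 1 := rfl
lemma dens_succ (k : ℕ) (x : ℝ) : dens (k + 1) x = dens k x * (1 + Real.cos (freq k * x)) := rfl
lemma bnd_zero : bnd 0 = 1 := rfl
lemma bnd_succ (k : ℕ) : bnd (k + 1) = bnd k + freq k + 1 := rfl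
lemma dens_good (k : ℕ) : Good (fun x => (dens k x : ℂ)) := (stage k).2.1
lemma dens_nonneg (k : ℕ) (x : ℝ) : 0 ≤ dens k x := (stage k).2.2 x
lemma freq_nonneg (k : ℕ) : 0 ≤ freq k := (stepq_spec k (stage k)).1
lemma freq_spec (k : ℕ) (n : ℕ) (t : ℝ) (h : freq k - bnd k ≤ |t|) :
    ‖∫ x in (1:ℝ)..2, osc n t x * (dens k x : ℂ)‖ ≤ (1 / 2) ^ (k + 5) :=
  (stepq_spec k (stage k)).2 n t h

lemma dens_continuous (k : ℕ) : Continuous (dens k) := by
  have h : dens k = fun x => ((dens k x : ℂ)).re := by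
    ext x; simp
  rw [h]
  exact Complex.continuous_re.comp (dens_good k).1

lemma bnd_ge (k : ℕ) : (k : ℝ) + 1 ≤ bnd k := by
  induction k with
  | zero => simp [bnd_zero]
  | succ k ih =>
    rw [bnd_succ]
    push_cast
    have := freq_nonneg k
    linarith

lemma bnd_mono : Monotone bnd := by
  apply monotone_nat_of_le_succ
  intro k
  rw [bnd_succ]
  have := freq_nonneg k
  linarith

lemma freq_le_bnd {j k : ℕ} (h : j < k) : freq j ≤ bnd k := by
  have h1 : bnd (j + 1) ≤ bnd k := bnd_mono h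
  rw [bnd_succ] at h1
  have h2 := bnd_ge j
  have h3 : (0:ℝ) ≤ j := Nat.cast_nonneg j
  linarith

/-- The transform of the `k`-th density. -/
noncomputable def tr (k n : ℕ) (s : ℝ) : ℂ := ∫ x in (1:ℝ)..2, osc n s x * (dens k x : ℂ)

lemma tr_succ (k n : ℕ) (s : ℝ) :
    tr (k + 1) n s = tr k n s + ((1 / 2 : ℂ) * tr k n (s + freq k) +
      (1 / 2 : ℂ) * tr k n (s - freq k)) := by
  unfold tr
  have hc : Continuous (fun x => (dens k x : ℂ)) := (dens_good k).1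
  rw [← intervalIntegral.integral_const_mul, ← intervalIntegral.integral_const_mul,
    ← intervalIntegral.integral_add, ← intervalIntegral.integral_add]
  · congr 1
    ext x
    rw [dens_succ, cos_expand]
    have h1 := osc_mul_exp n s (freq k) x (dens k x : ℂ)
    have h2 := osc_mul_exp n s (-freq k) x (dens k x : ℂ)
    rw [sub_eq_add_neg, ← h1, ← h2]
    ring
  · exact osc_int hc n s 1 2
  · exact ((osc_int hc n _ 1 2).const_mul _).add ((osc_int hc n _ 1 2).const_mul _)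
  · exact (osc_int hc n _ 1 2).const_mul _
  · exact (osc_int hc n _ 1 2).const_mul _

lemma tr_bound (k n : ℕ) (s : ℝ) (h : freq k - bnd k ≤ |s|) : ‖tr k n s‖ ≤ (1 / 2) ^ (k + 5) :=
  freq_spec k n s h

lemma tr_diff (k n : ℕ) (s : ℝ) (h : |s| ≤ bnd k) :
    ‖tr (k + 1) n s - tr k n s‖ ≤ (1 / 2) ^ (k + 5) := by
  rw [tr_succ, add_sub_cancel_left]
  have hq := freq_nonneg k
  obtain ⟨h1, h2⟩ := abs_le.mp h
  have a1 : ‖tr k n (s + freq k)‖ ≤ (1 / 2) ^ (k + 5) := by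
    apply tr_bound
    refine le_trans ?_ (le_abs_self _)
    linarith
  have a2 : ‖tr k n (s - freq k)‖ ≤ (1 / 2) ^ (k + 5) := by
    apply tr_bound
    refine le_trans ?_ (neg_le_abs _)
    linarith
  calc ‖(1 / 2 : ℂ) * tr k n (s + freq k) + (1 / 2 : ℂ) * tr k n (s - freq k)‖
      ≤ ‖(1 / 2 : ℂ) * tr k n (s + freq k)‖ + ‖(1 / 2 : ℂ) * tr k n (s - freq k)‖ :=
        norm_add_le _ _
    _ = 1 / 2 * ‖tr k n (s + freq k)‖ + 1 / 2 * ‖tr k n (s - freq k)‖ := by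
        rw [norm_mul, norm_mul]
        norm_num
    _ ≤ 1 / 2 * (1 / 2) ^ (k + 5) + 1 / 2 * (1 / 2) ^ (k + 5) := by gcongr
    _ = (1 / 2) ^ (k + 5) := by ring

lemma tr_diff_far (k m n : ℕ) (s : ℝ) (h : |s| ≤ bnd k) :
    ‖tr (k + m) n s - tr k n s‖ ≤ (1 / 2) ^ (k + 4) - (1 / 2) ^ (k + m + 4) := by
  induction m with
  | zero => simp
  | succ m ih =>
    have h1 : |s| ≤ bnd (k + m) := h.trans (bnd_mono (Nat.le_add_right k m))
    have h2 := tr_diff (k + m) n s h1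
    calc ‖tr (k + (m + 1)) n s - tr k n s‖
        = ‖(tr (k + m + 1) n s - tr (k + m) n s) + (tr (k + m) n s - tr k n s)‖ := by
          congr 1
          rw [← add_assoc]
          ring
      _ ≤ ‖tr (k + m + 1) n s - tr (k + m) n s‖ + ‖tr (k + m) n s - tr k n s‖ := norm_add_le _ _
      _ ≤ (1 / 2) ^ (k + m + 5) + ((1 / 2) ^ (k + 4) - (1 / 2) ^ (k + m + 4)) := add_le_add h2 ih
      _ = (1 / 2) ^ (k + 4) - (1 / 2) ^ (k + (m + 1) + 4) := by ring

lemma tr_close {k j : ℕ} (hkj : k ≤ j) (n : ℕ) (s : ℝ) (h : |s| ≤ bnd k) :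
    ‖tr j n s - tr k n s‖ ≤ (1 / 2) ^ (k + 4) := by
  obtain ⟨m, rfl⟩ := Nat.exists_eq_add_of_le hkj
  have h1 := tr_diff_far k m n s h
  have h2 : (0:ℝ) ≤ (1 / 2) ^ (k + m + 4) := by positivity
  linarith

lemma tr_tendsto (k : ℕ) (s : ℝ) : Tendsto (fun n => tr k n s) atTop (𝓝 0) := by
  rw [Metric.tendsto_atTop]
  intro ε hε
  obtain ⟨R, hR⟩ := (dens_good k).2 (ε / 2) (by positivity)
  obtain ⟨N, hN⟩ := exists_nat_ge R
  refine ⟨N, fun n hn => ?_⟩
  rw [dist_zero_right]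
  have h1 : R ≤ n := hN.trans (by exact_mod_cast hn)
  have := hR n s (Or.inl h1)
  unfold tr
  linarith

lemma tr_zero_zero : tr 0 0 0 = 1 := by
  unfold tr osc
  simp [dens_zero]
  norm_num

/-- total mass of the densities -/
lemma mass_close (j : ℕ) : ‖tr j 0 0 - 1‖ ≤ 1 / 16 := by
  have h := tr_close (Nat.zero_le j) 0 0 (by rw [abs_zero, bnd_zero]; exact zero_le_one)
  rw [tr_zero_zero] at h
  refine h.trans ?_
  norm_num

lemma tr_freq_ge {k j : ℕ} (hkj : k < j) : 1 / 4 ≤ ‖tr j 0 (freq k)‖ := by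
  have hq := freq_nonneg k
  have hS : |freq k| ≤ bnd (k + 1) := by
    rw [abs_of_nonneg hq]
    exact freq_le_bnd (Nat.lt_succ_self k)
  have h1 := tr_close (Nat.succ_le_of_lt hkj) 0 (freq k) hS
  have hb : 0 ≤ bnd k := by
    have := bnd_ge k
    have h3 : (0:ℝ) ≤ k := Nat.cast_nonneg k
    linarith
  have e := tr_succ k 0 (freq k)
  rw [sub_self] at e
  have b1 : ‖tr k 0 (freq k)‖ ≤ (1 / 2) ^ (k + 5) := by
    apply tr_bound
    rw [abs_of_nonneg hq]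
    linarith
  have b2 : ‖tr k 0 (freq k + freq k)‖ ≤ (1 / 2) ^ (k + 5) := by
    apply tr_bound
    rw [abs_of_nonneg (by linarith)]
    linarith
  have hm := mass_close k
  have c1 : ((1:ℝ) / 2) ^ (k + 5) ≤ 1 / 32 := by
    calc ((1:ℝ) / 2) ^ (k + 5) ≤ (1 / 2) ^ 5 :=
          pow_le_pow_of_le_one (by norm_num) (by norm_num) (by omega)
      _ = 1 / 32 := by norm_num
  have c2 : ((1:ℝ) / 2) ^ (k + 1 + 4) ≤ 1 / 32 := by
    calc ((1:ℝ) / 2) ^ (k + 1 + 4) ≤ (1 / 2) ^ 5 :=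
          pow_le_pow_of_le_one (by norm_num) (by norm_num) (by omega)
      _ = 1 / 32 := by norm_num
  -- `1/2 = tr j 0 (freq k) + small`
  have key : (1 / 2 : ℂ) = tr j 0 (freq k) - (tr j 0 (freq k) - tr (k + 1) 0 (freq k))
      - tr k 0 (freq k) - (1 / 2 : ℂ) * tr k 0 (freq k + freq k)
      - (1 / 2 : ℂ) * (tr k 0 0 - 1) := by
    rw [e]
    ring
  have hn : ‖(1 / 2 : ℂ)‖ ≤ ‖tr j 0 (freq k)‖ + ‖tr j 0 (freq k) - tr (k + 1) 0 (freq k)‖
      + ‖tr k 0 (freq k)‖ + ‖(1 / 2 : ℂ) * tr k 0 (freq k + freq k)‖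
      + ‖(1 / 2 : ℂ) * (tr k 0 0 - 1)‖ := by
    conv_lhs => rw [key]
    refine (norm_sub_le _ _).trans ?_
    gcongr
    refine (norm_sub_le _ _).trans ?_
    gcongr
    refine (norm_sub_le _ _).trans ?_
    gcongr
    exact norm_sub_le _ _
  have hh : ‖(1 / 2 : ℂ)‖ = 1 / 2 := by norm_num
  rw [norm_mul, norm_mul, hh] at hn
  have h1' : ‖tr j 0 (freq k) - tr (k + 1) 0 (freq k)‖ ≤ 1 / 32 := h1.trans c2
  have b1' : ‖tr k 0 (freq k)‖ ≤ 1 / 32 := b1.trans c1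
  have b2' : ‖tr k 0 (freq k + freq k)‖ ≤ 1 / 32 := b2.trans c1
  have hh2 : (1:ℝ) / 2 ≤ ‖tr j 0 (freq k)‖ + 1 / 32 + 1 / 32 + 1 / 2 * (1 / 32) + 1 / 2 * (1 / 16) := by
    refine hn.trans ?_
    gcongr
  set X := ‖tr j 0 (freq k)‖ with hX
  clear_value X
  clear h1 e b1 b2 c1 c2 key hn hh h1' b1' b2' hS hm
  linarith

end Pool.Agent.Lib.MP_ae9c87_an
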