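import Pool.Agent.Lib.MP_ae9c87_an.Companion

set_option autoImplicit false
open MeasureTheory Filter Topology Complex
open scoped ComplexConjugate InnerProductSpace

namespace Pool.Agent.Lib.MP_ae9c87_an

lemma piOp_norm_eq (g : C(X, ℂ)) (hg : ∀ x, ‖g x‖ = 1) (z : H) : ‖piOp g z‖ = ‖z‖ := by
  apply le_antisymm
  · exact piOp_norm_le _ (fun x => (hg x).le) z
  · have h0 : star g * g = 1 := by
      ext x
      have h1 : (star g * g) x = conj (g x) * g x := rfl
      have h2 : (1 : C(X, ℂ)) x = 1 := rfl
      rw [h1, h2, ← Complex.normSq_eq_conj_mul_self, Complex.normSq_eq_norm_sq, hg]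
      simp
    have h1 : piOp (star g) (piOp g z) = z := by
      rw [← piOp_mul, h0, piOp_one]
    calc ‖z‖ = ‖piOp (star g) (piOp g z)‖ := by rw [h1]
      _ ≤ ‖piOp g z‖ := piOp_norm_le _ (fun x => by
          have h2 : (star g) x = conj (g x) := rfl
          rw [h2, RCLike.norm_conj, hg]) _

lemma Vg_norm_eq (n : ℕ) (z : H) : ‖(Vg ^ n) z‖ = ‖z‖ := by
  rw [Vg_pow]
  apply piOp_norm_eq
  intro x
  rw [ContinuousMap.pow_apply, vs_apply, norm_pow, norm_neg, norm_w, one_pow]

lemma ev_ne : ev 0 ≠ 0 := by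
  intro h
  apply T_not
  rw [h]
  simp only [map_zero, inner_zero_right]
  exact tendsto_const_nhds

lemma not_fin : ¬ FiniteDimensional ℂ H := by
  intro hf
  let b := stdOrthonormalBasis ℂ H
  have h1 : Tendsto (fun n => (Vg ^ n) (ev 0)) atTop (𝓝 0) := by
    have h2 : Tendsto (fun n => ∑ i, inner ℂ (b i) ((Vg ^ n) (ev 0)) • b i) atTop
        (𝓝 (∑ i, (0:ℂ) • b i)) := by
      refine tendsto_finsetSum _ (fun i _ => ?_)
      refine Tendsto.smul_const ?_ _
      have h3 := Vg_weak (ev 0) (b i)
      have h4 : Tendsto (fun n : ℕ => conj (inner ℂ ((Vg ^ n) (ev 0)) (b i))) atTop (𝓝 (conj 0)) :=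
        (Complex.continuous_conj.tendsto 0).comp h3
      rw [map_zero] at h4
      refine h4.congr (fun n => ?_)
      exact inner_conj_symm _ _
    simp only [zero_smul, Finset.sum_const_zero] at h2
    exact h2.congr (fun n => b.sum_repr' _)
  have h5 := h1.norm
  simp only [Vg_norm_eq, norm_zero] at h5
  have h6 : ‖ev 0‖ = 0 := tendsto_nhds_unique tendsto_const_nhds h5
  exact ev_ne (norm_eq_zero.1 h6)

/-- Every separable infinite-dimensional Hilbert space has a Hilbert basis indexed by `ℕ`. -/
lemma exists_basis (K : Type*) [NormedAddCommGroup K] [InnerProductSpace ℂ K] [CompleteSpace K]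
    [TopologicalSpace.SeparableSpace K] (hK : ¬ FiniteDimensional ℂ K) :
    Nonempty (HilbertBasis ℕ ℂ K) := by
  obtain ⟨w, b, hb⟩ := exists_hilbertBasis ℂ K
  have hd : DiscreteTopology w := by
    refine DiscreteTopology.of_forall_le_dist (r := 1) one_pos (fun x y hxy => ?_)
    have hn : ‖(x : K) - y‖ ^ 2 = 2 := by
      have hx : ‖(x : K)‖ = 1 := by rw [← hb]; exact b.orthonormal.1 x
      have hy : ‖(y : K)‖ = 1 := by rw [← hb]; exact b.orthonormal.1 y
      have hxy' : (inner ℂ (x : K) (y : K) : ℂ) = 0 := by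
        rw [← hb]
        exact b.orthonormal.2 hxy
      rw [@norm_sub_sq ℂ, hx, hy, hxy']
      norm_num
    change 1 ≤ dist (x : K) (y : K)
    rw [dist_eq_norm]
    nlinarith [norm_nonneg ((x : K) - y)]
  have hs : TopologicalSpace.SeparableSpace w := inferInstance
  have hc : Countable w := TopologicalSpace.separableSpace_iff_countable.1 hs
  have hi : Infinite w := by
    by_contra hfin
    rw [not_infinite_iff_finite] at hfin
    apply hK
    have := Fintype.ofFinite w
    exact Module.Basis.finiteDimensional_of_finite (b.toOrthonormalBasis).toBasis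
  obtain ⟨e⟩ := nonempty_equiv_of_countable (α := ℕ) (β := w)
  refine ⟨HilbertBasis.mk (v := fun n => b (e n)) (b.orthonormal.comp e e.injective) ?_⟩
  have h1 : Set.range (fun n => b (e n)) = Set.range b := by
    have h2 : (fun n => b (e n)) = b ∘ e := rfl
    rw [h2, EquivLike.range_comp]
  rw [h1, b.dense_span]

/-- two separable infinite-dimensional Hilbert spaces are isometrically isomorphic -/
lemma exists_iso (K : Type*) [NormedAddCommGroup K] [InnerProductSpace ℂ K] [CompleteSpace K]
    [TopologicalSpace.SeparableSpace K] (hK : ¬ FiniteDimensional ℂ K) :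
    Nonempty (H ≃ₗᵢ[ℂ] K) := by
  have := separable_H
  obtain ⟨b0⟩ := exists_basis H not_fin
  obtain ⟨b1⟩ := exists_basis K hK
  exact ⟨b0.repr.trans b1.repr.symm⟩

end Pool.Agent.Lib.MP_ae9c87_an
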